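import Pool.Agent.OneTape.Quant2

set_option autoImplicit false

namespace Pool.Agent.OneTape

open Filter Topology

/-- The quantitative theorem for all numbers below `b ^ n`. -/
theorem below (b : ℕ) (hb : 2 ≤ b) (α : ℝ) (hα : 0 < α) :
    ∃ c : ℝ, 0 < c ∧ ∃ n₀ : ℕ, ∀ n : ℕ, n₀ ≤ n → ∀ (A : Set ℕ) (Q Γ : Type) (_ : Fintype Q)
      (M : Machine Q Γ) (blank : Γ) (letter : ℕ → Γ) (ord : List ℕ → List ℕ) (T : ℕ),
      (ord = id ∨ ord = List.reverse) →
      (∀ a t, a < b ^ n → AcceptsNat M blank letter ord b t a → a ∈ A) →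
      (b : ℝ) ^ (α * n) ≤ ({a | a < b ^ n ∧
        ∃ t ≤ T, AcceptsNat M blank letter ord b t a}.ncard : ℝ) →
      ∃ N : ℕ, N < 2 * b ^ n ∧
        Real.exp (c * n / Real.sqrt (n + T * Real.log ((Fintype.card Q : ℝ) + 1))) ≤
          ({p : ℕ × ℕ | p.1 + p.2 = N ∧ p.1 ∈ A ∧ p.2 ∈ A}.ncard : ℝ) := by
  classical
  obtain ⟨c, hc, n₁, hn₁⟩ := quant b hb (α / 2) (by positivity)
  have hb0 : (0 : ℝ) < b := by positivity
  have hb1 : (1 : ℝ) ≤ b := by exact_mod_cast (by omega : 1 ≤ b)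
  have hb1' : (1 : ℝ) < b := by exact_mod_cast (by omega : 1 < b)
  -- for large `n`, `b ^ (α n / 2) > n + 1` and `α n / 2 ≥ n₁`
  have hgrow : ∀ᶠ n : ℕ in atTop, ((n : ℝ) + 1) * (b : ℝ) ^ (α / 2 * n) < (b : ℝ) ^ (α * n) := by
    filter_upwards [growth b hb α 0 hα] with n hn
    rw [zero_add] at hn
    refine hn.trans_le ?_
    rw [div_le_iff₀ (Real.rpow_pos_of_pos hb0 _)]
    have h1 : (1 : ℝ) ≤ (b : ℝ) ^ α := Real.one_le_rpow hb1 hα.le
    have h2 : (0 : ℝ) < (b : ℝ) ^ (α * n) := Real.rpow_pos_of_pos hb0 _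
    exact le_mul_of_one_le_right h2.le h1
  have hlarge : ∀ᶠ n : ℕ in atTop, (n₁ : ℝ) + 1 ≤ α / 2 * n := by
    have h1 : Tendsto (fun n : ℕ => α / 2 * (n : ℝ)) atTop atTop :=
      tendsto_natCast_atTop_atTop.const_mul_atTop (by positivity)
    exact h1.eventually_ge_atTop _
  obtain ⟨n₀, hn₀⟩ := eventually_atTop.mp (hgrow.and hlarge)
  refine ⟨c * (α / 2), by positivity, n₀, ?_⟩
  intro n hn A Q Γ _ M blank letter ord T hord hmem hcard
  obtain ⟨hg, hl⟩ := hn₀ n hn
  set lq : ℝ := Real.log ((Fintype.card Q : ℝ) + 1) with hlq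
  have hlq0 : 0 ≤ lq := Real.log_nonneg (by
    have : (0 : ℝ) ≤ (Fintype.card Q : ℝ) := Nat.cast_nonneg _
    linarith)
  set S : ℕ → Set ℕ := fun k => {a | (Nat.digits b a).length = k ∧
    ∃ t ≤ T, AcceptsNat M blank letter ord b t a} with hS
  have hSfin : ∀ k, (S k).Finite := by
    intro k
    apply (Set.finite_Iio (b ^ k)).subset
    rintro a ⟨h1, -⟩
    rw [Set.mem_Iio, ← h1]
    exact Nat.lt_base_pow_length_digits (by omega)
  have hScard : ∀ k, (S k).ncard ≤ b ^ k := by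
    intro k
    calc (S k).ncard ≤ (Set.Iio (b ^ k)).ncard := by
          apply Set.ncard_le_ncard _ (Set.finite_Iio _)
          rintro a ⟨h1, -⟩
          rw [Set.mem_Iio, ← h1]
          exact Nat.lt_base_pow_length_digits (by omega)
      _ = b ^ k := by rw [← Finset.coe_Iio, Set.ncard_coe_finset, Nat.card_Iio]
  -- a dense layer
  have hex : ∃ k ≤ n, (b : ℝ) ^ (α / 2 * n) < ((S k).ncard : ℝ) := by
    by_contra hcon
    push Not at hcon
    have hsub : {a | a < b ^ n ∧ ∃ t ≤ T, AcceptsNat M blank letter ord b t a} ⊆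
        ⋃ k ∈ Finset.range (n + 1), S k := by
      rintro a ⟨h1, h2⟩
      simp only [Set.mem_iUnion, Finset.mem_range]
      refine ⟨(Nat.digits b a).length, ?_, rfl, h2⟩
      have := (Nat.digits_length_le_iff (by omega : 1 < b) a (k := n)).mpr h1
      omega
    have hfin : (⋃ k ∈ Finset.range (n + 1), S k).Finite :=
      Set.Finite.biUnion (Finset.finite_toSet _) (fun k _ => hSfin k)
    have h4 : {a | a < b ^ n ∧ ∃ t ≤ T, AcceptsNat M blank letter ord b t a}.ncard ≤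
        ∑ k ∈ Finset.range (n + 1), (S k).ncard :=
      (Set.ncard_le_ncard hsub hfin).trans (Finset.set_ncard_biUnion_le _ _)
    have h5 : ({a | a < b ^ n ∧ ∃ t ≤ T, AcceptsNat M blank letter ord b t a}.ncard : ℝ) ≤
        ∑ k ∈ Finset.range (n + 1), ((S k).ncard : ℝ) := by exact_mod_cast h4
    have h6 : ∑ k ∈ Finset.range (n + 1), ((S k).ncard : ℝ) ≤
        ∑ k ∈ Finset.range (n + 1), (b : ℝ) ^ (α / 2 * n) := by
      apply Finset.sum_le_sum
      intro k hk
      rw [Finset.mem_range] at hk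
      exact hcon k (by omega)
    rw [Finset.sum_const, Finset.card_range, nsmul_eq_mul] at h6
    push_cast at h6
    linarith
  obtain ⟨k, hkn, hk⟩ := hex
  have hkR : (k : ℝ) ≤ n := by exact_mod_cast hkn
  have hkbig : α / 2 * n < k := by
    have h1 : (b : ℝ) ^ (α / 2 * n) < (b : ℝ) ^ (k : ℝ) := by
      refine hk.trans_le ?_
      rw [Real.rpow_natCast]
      exact_mod_cast hScard k
    exact (Real.rpow_lt_rpow_left_iff hb1').mp h1
  have hkn₁ : n₁ ≤ k := by
    have : (n₁ : ℝ) ≤ k := by linarith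
    exact_mod_cast this
  have hk0 : (0 : ℝ) < k := by
    have : (0 : ℝ) ≤ n₁ := Nat.cast_nonneg _
    linarith
  have hlt : ∀ a, (Nat.digits b a).length = k → a < b ^ n := by
    intro a ha
    calc a < b ^ (Nat.digits b a).length := Nat.lt_base_pow_length_digits (by omega)
      _ = b ^ k := by rw [ha]
      _ ≤ b ^ n := Nat.pow_le_pow_right (by omega) hkn
  obtain ⟨N, -, h2, h3⟩ := hn₁ k hkn₁ A Q Γ _ M blank letter ord T hord
    (fun a t ha ht => hmem a t (hlt a ha) ht) (by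
      refine le_trans ?_ hk.le
      apply Real.rpow_le_rpow_of_exponent_le hb1
      gcongr)
  refine ⟨N, h2.trans_le (Nat.mul_le_mul_left 2 (Nat.pow_le_pow_right (by omega) hkn)), ?_⟩
  refine le_trans ?_ h3
  apply Real.exp_le_exp.mpr
  have hTl : 0 ≤ (T : ℝ) * lq := by positivity
  have h5 : 0 < Real.sqrt (k + T * lq) := Real.sqrt_pos.mpr (by positivity)
  have h6 : Real.sqrt (k + T * lq) ≤ Real.sqrt (n + T * lq) := by
    apply Real.sqrt_le_sqrt
    linarith
  calc c * (α / 2) * n / Real.sqrt (n + T * lq) = c * (α / 2 * n) / Real.sqrt (n + T * lq) := by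
        ring
    _ ≤ c * k / Real.sqrt (n + T * lq) := by gcongr
    _ ≤ c * k / Real.sqrt (k + T * lq) := by gcongr

end Pool.Agent.OneTape
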