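import Mathlib

set_option autoImplicit false

namespace Pool.Agent.OneTape

/-- The letters before position `p` from `x`, the others from `y`. -/
def wmix {n : ℕ} {α : Type} (p : ℕ) (x y : Fin n → α) : Fin n → α :=
  fun k => if (k : ℕ) < p then x k else y k

/-- The index of the block of position `k` for the cuts `P 0 ≤ P 1 ≤ ... ≤ P (m - 1)`. -/
def blk (P : ℕ → ℕ) (m k : ℕ) : ℕ := ((Finset.range m).filter (fun j => P j ≤ k)).card

theorem blk_le (P : ℕ → ℕ) (m k : ℕ) : blk P m k ≤ m := by
  unfold blk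
  calc _ ≤ (Finset.range m).card := Finset.card_filter_le _ _
    _ = m := Finset.card_range m

theorem blk_eq (P : ℕ → ℕ) (hP : Monotone P) (m k j : ℕ) (hj : j < m) (h1 : P j ≤ k)
    (h2 : k < P (j + 1)) : blk P m k = j + 1 := by
  unfold blk
  have : (Finset.range m).filter (fun i => P i ≤ k) = Finset.range (j + 1) := by
    ext i
    simp only [Finset.mem_filter, Finset.mem_range]
    constructor
    · rintro ⟨_, h4⟩
      by_contra hcon
      have := hP (by omega : j + 1 ≤ i)
      omega
    · intro h3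
      exact ⟨by omega, (hP (by omega : i ≤ j)).trans h1⟩
  rw [this, Finset.card_range]

theorem blk_zero (P : ℕ → ℕ) (hP : Monotone P) (m k : ℕ) (h2 : k < P 0) : blk P m k = 0 := by
  unfold blk
  rw [Finset.card_eq_zero, Finset.filter_eq_empty_iff]
  intro i _
  have := hP (Nat.zero_le i)
  omega

theorem swap_mem {n : ℕ} {α : Type} (P : ℕ → ℕ) (hP : Monotone P) (m : ℕ) (hPm : n ≤ P m)
    (C : Set (Fin n → α)) (hC : ∀ j < m, ∀ x ∈ C, ∀ y ∈ C, wmix (P j) x y ∈ C)
    (x y : Fin n → α) (hx : x ∈ C) (hy : y ∈ C) (S : Finset ℕ) :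
    (fun k : Fin n => if blk P m k ∈ S then x k else y k) ∈ C := by
  classical
  set z : Fin n → α := fun k : Fin n => if blk P m k ∈ S then x k else y k with hz
  have key : ∀ r, r ≤ m → (fun k : Fin n => if P (m - r) ≤ k then z k else
      (if m - r ∈ S then x k else y k)) ∈ C := by
    intro r
    induction r with
    | zero =>
      intro _
      have : (fun k : Fin n => if P (m - 0) ≤ k then z k else
          (if m - 0 ∈ S then x k else y k)) = if m ∈ S then x else y := by
        funext k
        have : ¬ P m ≤ k := by have := k.2; omega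
        simp only [Nat.sub_zero, this, if_false]
        split_ifs <;> rfl
      rw [this]
      split_ifs
      · exact hx
      · exact hy
    | succ r ih =>
      intro hr
      have h1 := ih (by omega)
      set j := m - (r + 1) with hj
      have hj1 : m - r = j + 1 := by omega
      rw [hj1] at h1
      have hw : (if j ∈ S then x else y) ∈ C := by
        split_ifs
        · exact hx
        · exact hy
      have h2 := hC j (by omega) _ hw _ h1
      convert h2 using 1
      funext k
      unfold wmix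
      by_cases hk : (k : ℕ) < P j
      · have : ¬ P j ≤ k := by omega
        simp only [this, if_false, hk, if_true]
        split_ifs <;> rfl
      · have hk' : P j ≤ k := by omega
        simp only [hk', if_true, hk, if_false]
        by_cases hk2 : P (j + 1) ≤ k
        · simp only [hk2, if_true]
        · simp only [hk2, if_false]
          have h3 := blk_eq P hP m k j (by omega) hk' (by omega)
          simp only [hz, h3]
  have h0 := key m le_rfl
  convert h0 using 1
  funext k
  simp only [Nat.sub_self]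
  by_cases hk : P 0 ≤ k
  · simp only [hk, if_true]
  · have h3 := blk_zero P hP m k (by omega)
    simp only [hk, if_false, hz, h3]

open Classical in
/-- The nontrivial blocks of `C`. -/
noncomputable def nontriv {n : ℕ} {α : Type} (B : Fin n → ℕ) (m : ℕ) (C : Set (Fin n → α)) :
    Finset ℕ :=
  (Finset.range (m + 1)).filter (fun j => ∃ x ∈ C, ∃ y ∈ C, ∃ k, B k = j ∧ x k ≠ y k)

theorem mem_nontriv {n : ℕ} {α : Type} (B : Fin n → ℕ) (m : ℕ) (C : Set (Fin n → α)) (j : ℕ) :
    j ∈ nontriv B m C ↔
      j ∈ Finset.range (m + 1) ∧ ∃ x ∈ C, ∃ y ∈ C, ∃ k, B k = j ∧ x k ≠ y k := by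
  classical
  simp only [nontriv, Finset.mem_filter]

theorem exists_far {n : ℕ} {α : Type} (B : Fin n → ℕ) (m : ℕ) (C : Set (Fin n → α))
    (hne : C.Nonempty)
    (hC : ∀ x ∈ C, ∀ y ∈ C, ∀ S : Finset ℕ, (fun k : Fin n => if B k ∈ S then x k else y k) ∈ C)
    (S : Finset ℕ) (hS : S ⊆ nontriv B m C) :
    ∃ x ∈ C, ∃ y ∈ C, ∀ j ∈ S, ∃ k, B k = j ∧ x k ≠ y k := by
  classical
  induction S using Finset.induction_on with
  | empty =>
    obtain ⟨x, hx⟩ := hne
    exact ⟨x, hx, x, hx, by simp⟩
  | insert j S hj ih =>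
    obtain ⟨x, hx, y, hy, hxy⟩ := ih (fun a ha => hS (Finset.mem_insert_of_mem ha))
    have h1 := hS (Finset.mem_insert_self j S)
    obtain ⟨_, u, hu, v, hv, k, hk, huv⟩ := (mem_nontriv B m C j).mp h1
    refine ⟨_, hC u hu x hx {j}, _, hC v hv y hy {j}, ?_⟩
    intro i hi
    rcases Finset.mem_insert.mp hi with h | h
    · refine ⟨k, by rw [hk, h], ?_⟩
      simpa [hk] using huv
    · obtain ⟨k', hk', hne'⟩ := hxy i h
      refine ⟨k', hk', ?_⟩
      have : i ≠ j := by rintro rfl; exact hj h
      simpa [hk', this] using hne'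

theorem card_le_blocks {n b : ℕ} (B : Fin n → ℕ) (m : ℕ) (hB : ∀ k, B k ≤ m)
    (C : Set (Fin n → Fin b)) :
    C.ncard ≤ b ^ ((Finset.univ.filter (fun k : Fin n => B k ∈ nontriv B m C)).card) := by
  classical
  set K := Finset.univ.filter (fun k : Fin n => B k ∈ nontriv B m C) with hK
  have h1 : (Set.univ : Set (K → Fin b)).ncard = b ^ K.card := by
    rw [Set.ncard_univ, Nat.card_eq_fintype_card]
    simp
  rw [← h1]
  refine Set.ncard_le_ncard_of_injOn (fun x (k : K) => x k) (fun _ _ => Set.mem_univ _) ?_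
    Set.finite_univ
  intro x hx y hy hxy
  funext k
  by_cases hk : B k ∈ nontriv B m C
  · have := congrFun hxy ⟨k, by simp [hK, hk]⟩
    exact this
  · by_contra hne
    apply hk
    rw [mem_nontriv]
    refine ⟨Finset.mem_range.mpr (by have := hB k; omega), x, hx, y, hy, k, rfl, hne⟩

theorem reps_ge {n : ℕ} {α : Type} (B : Fin n → ℕ) (C : Set (Fin n → α))
    (hC : ∀ x ∈ C, ∀ y ∈ C, ∀ S : Finset ℕ, (fun k : Fin n => if B k ∈ S then x k else y k) ∈ C)
    (f : (Fin n → α) → ℕ) (φ : Fin n → α → ℕ) (hf : ∀ x, f x = ∑ k, φ k (x k))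
    (hinj : Set.InjOn f C) (A : Set ℕ) (hA : ∀ x ∈ C, f x ∈ A)
    (S : Finset ℕ) (x y : Fin n → α) (hx : x ∈ C) (hy : y ∈ C)
    (hxy : ∀ j ∈ S, ∃ k, B k = j ∧ x k ≠ y k) :
    2 ^ S.card ≤ {p : ℕ × ℕ | p.1 + p.2 = f x + f y ∧ p.1 ∈ A ∧ p.2 ∈ A}.ncard := by
  classical
  have h1 : ((S.powerset : Finset (Finset ℕ)) : Set (Finset ℕ)).ncard = 2 ^ S.card := by
    rw [Set.ncard_coe_finset, Finset.card_powerset]
  rw [← h1]
  refine Set.ncard_le_ncard_of_injOn
    (fun T => (f (fun k => if B k ∈ T then x k else y k), f (fun k => if B k ∈ T then y k else x k)))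
    ?_ ?_ ?_
  · intro T _
    refine ⟨?_, hA _ (hC x hx y hy T), hA _ (hC y hy x hx T)⟩
    simp only [hf]
    rw [← Finset.sum_add_distrib, ← Finset.sum_add_distrib]
    refine Finset.sum_congr rfl fun k _ => ?_
    split_ifs
    · rfl
    · exact add_comm _ _
  · intro T hT T' hT' h
    have h2 := hinj (hC x hx y hy T) (hC x hx y hy T') (congrArg Prod.fst h)
    have hTS : T ⊆ S := by simpa using hT
    have hTS' : T' ⊆ S := by simpa using hT'
    ext j
    constructor
    · intro hj
      obtain ⟨k, hk, hne⟩ := hxy j (hTS hj)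
      by_contra hj'
      have h3 := congrFun h2 k
      simp only [hk, hj, if_true, hj', if_false] at h3
      exact hne h3
    · intro hj
      obtain ⟨k, hk, hne⟩ := hxy j (hTS' hj)
      by_contra hj'
      have h3 := congrFun h2 k
      simp only [hk, hj, if_true, hj', if_false] at h3
      exact hne h3.symm
  · refine Set.Finite.subset ((Set.finite_Iic (f x + f y)).prod (Set.finite_Iic (f x + f y))) ?_
    rintro ⟨u, v⟩ ⟨h2, _, _⟩
    simp only [Set.mem_prod, Set.mem_Iic]
    simp only at h2
    omega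

end Pool.Agent.OneTape
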