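import Pool.Agent.OneTape.Hyb
import Pool.Agent.OneTape.Prod

set_option autoImplicit false

namespace Pool.Agent.OneTape

/-- The tape which holds the letters `letter i (x i)` on the cells `0, ..., n - 1` and
`base i` on the others. -/
def tapeOf {n b : ℕ} {Γ : Type} (letter : ℤ → Fin b → Γ) (base : ℤ → Γ) (x : Fin n → Fin b) :
    ℤ → Γ :=
  fun i => if h : 0 ≤ i ∧ i < (n : ℤ) then letter i (x ⟨i.toNat, by omega⟩) else base i

theorem mix_tape {n b : ℕ} {Γ : Type} (letter : ℤ → Fin b → Γ) (base : ℤ → Γ) (p : ℕ)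
    (x y : Fin n → Fin b) :
    mix (p : ℤ) (tapeOf letter base x) (tapeOf letter base y) = tapeOf letter base (wmix p x y) := by
  funext i
  unfold mix tapeOf wmix
  by_cases h : 0 ≤ i ∧ i < (n : ℤ)
  · simp only [h, and_self, dif_pos]
    by_cases hi : i < (p : ℤ)
    · have : i.toNat < p := by omega
      simp [hi, this]
    · have : ¬ i.toNat < p := by omega
      simp [hi, this]
  · simp only [h, dif_neg, not_false_eq_true]
    split_ifs <;> rfl

theorem blk_spec (P : ℕ → ℕ) (hP : Monotone P) (m k j : ℕ) (h : blk P m k = j) :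
    (∀ i < j, P i ≤ k) ∧ (j < m → k < P j) := by
  constructor
  · intro i hi
    by_contra hcon
    push Not at hcon
    have : (Finset.range m).filter (fun i' => P i' ≤ k) ⊆ Finset.range i := by
      intro i' hi'
      simp only [Finset.mem_filter, Finset.mem_range] at hi' ⊢
      by_contra h2
      have := hP (by omega : i ≤ i')
      omega
    have h3 := Finset.card_le_card this
    rw [Finset.card_range] at h3
    unfold blk at h
    omega
  · intro hj
    by_contra hcon
    push Not at hcon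
    have : Finset.range (j + 1) ⊆ (Finset.range m).filter (fun i' => P i' ≤ k) := by
      intro i' hi'
      simp only [Finset.mem_filter, Finset.mem_range] at hi' ⊢
      exact ⟨by omega, (hP (by omega : i' ≤ j)).trans hcon⟩
    have h3 := Finset.card_le_card this
    rw [Finset.card_range] at h3
    unfold blk at h
    omega

/-- Blocks are short. -/
theorem block_card {n m h : ℕ} (hm : 1 ≤ m) (hn : n ≤ 2 * m * (h + 1)) (P : ℕ → ℕ)
    (hP : Monotone P) (hP1 : ∀ j < m, (2 * j + 1) * h ≤ P j ∧ P j ≤ (2 * j + 2) * h) (j : ℕ)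
    (hj : j ≤ m) :
    (Finset.univ.filter (fun k : Fin n => blk P m k = j)).card ≤ 3 * h + 2 * m := by
  classical
  set lo := (2 * j - 1) * h with hlo
  have h1 : (Finset.univ.filter (fun k : Fin n => blk P m k = j)).card ≤
      (Finset.Ico lo (lo + (3 * h + 2 * m))).card := by
    refine Finset.card_le_card_of_injOn (fun k => (k : ℕ)) ?_ (fun x _ y _ hxy => Fin.ext hxy)
    intro k hk
    have hk' : blk P m k = j := by simpa using hk
    obtain ⟨h2, h3⟩ := blk_spec P hP m k j hk'
    simp only [Finset.coe_Ico, Set.mem_Ico]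
    have hkn := k.2
    constructor
    · rcases Nat.eq_zero_or_pos j with h0 | h0
      · subst h0; simp [hlo]
      · have h4 := h2 (j - 1) (by omega)
        have h5 := (hP1 (j - 1) (by omega)).1
        have h6 : 2 * (j - 1) + 1 = 2 * j - 1 := by omega
        rw [h6] at h5
        exact h5.trans h4
    · rcases Nat.lt_or_ge j m with h0 | h0
      · have h4 := h3 h0
        have h5 := (hP1 j h0).2
        rcases Nat.eq_zero_or_pos j with h7 | h7
        · subst h7
          simp only [mul_zero, zero_add] at h5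
          simp only [hlo]
          omega
        · obtain ⟨i, rfl⟩ : ∃ i, j = i + 1 := ⟨j - 1, by omega⟩
          have e1 : (2 * (i + 1) + 2) * h = (2 * (i + 1) - 1) * h + 3 * h := by
            have : 2 * (i + 1) - 1 = 2 * i + 1 := by omega
            rw [this]; ring
          omega
      · have hjm : j = m := by omega
        have e1 : 2 * m * (h + 1) = (2 * m - 1) * h + (h + 2 * m) := by
          obtain ⟨i, rfl⟩ : ∃ i, m = i + 1 := ⟨m - 1, by omega⟩
          have : 2 * (i + 1) - 1 = 2 * i + 1 := by omega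
          rw [this]; ring
        rw [hlo, hjm]
        omega
  calc _ ≤ _ := h1
    _ = 3 * h + 2 * m := by rw [Nat.card_Ico]; omega

/-- Lists of length at most `L` as functions. -/
theorem list_inj {Q : Type} {L : ℕ} (l l' : List Q) (hl : l.length ≤ L) (hl' : l'.length ≤ L)
    (h : (fun i : Fin L => l[(i : ℕ)]?) = fun i : Fin L => l'[(i : ℕ)]?) : l = l' := by
  apply List.ext_getElem?
  intro i
  by_cases hi : i < L
  · exact congrFun h ⟨i, hi⟩
  · rw [List.getElem?_eq_none (by omega), List.getElem?_eq_none (by omega)]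

/-- The finite core: a set without `2 ^ τ` representations contains few words which are accepted
in time `T`. -/
theorem core {n b m h L T τ : ℕ} {Q Γ : Type} [Fintype Q] (M : Machine Q Γ)
    (letter : ℤ → Fin b → Γ) (base : ℤ → Γ) (A : Set ℕ)
    (hm : 1 ≤ m) (hh : 1 ≤ h) (hn : 2 * m * h ≤ n) (hn' : n ≤ 2 * m * (h + 1)) (hb : 1 ≤ b)
    (hL : T < (L + 1) * h)
    (D : Set (Fin n → Fin b)) (hD : ∀ p, ∀ x ∈ D, ∀ y ∈ D, wmix p x y ∈ D)
    (f : (Fin n → Fin b) → ℕ) (φ : Fin n → Fin b → ℕ) (hf : ∀ x, f x = ∑ k, φ k (x k))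
    (hinj : Set.InjOn f {x | x ∈ D ∧ ∃ t, M.Accepts t M.start 0 (tapeOf letter base x)})
    (hA : ∀ x ∈ D, (∃ t, M.Accepts t M.start 0 (tapeOf letter base x)) → f x ∈ A)
    (hr : ∀ N : ℕ, {p : ℕ × ℕ | p.1 + p.2 = N ∧ p.1 ∈ A ∧ p.2 ∈ A}.ncard < 2 ^ τ) :
    {x : Fin n → Fin b | x ∈ D ∧ ∃ t ≤ T, M.Accepts t M.start 0 (tapeOf letter base x)}.ncard ≤
      b ^ (τ * (3 * h + 2 * m)) * (h * (Fintype.card Q + 1) ^ L) ^ m := by
  classical
  set F : Set (Fin n → Fin b) :=
    {x | x ∈ D ∧ ∃ t ≤ T, M.Accepts t M.start 0 (tapeOf letter base x)} with hF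
  have hFfin : F.Finite := Set.toFinite F
  -- runs with logs
  have hrun : ∀ x ∈ F, ∃ l : ℤ → List Q, (∃ t, Run M t M.start 0 (tapeOf letter base x) l) ∧
      ∀ j, j < m → ∃ i, i < h ∧ (l (((2 * j + 1) * h + i : ℕ) : ℤ)).length ≤ L := by
    intro x hx
    obtain ⟨_, t, htT, ht⟩ := hx
    obtain ⟨l, hl⟩ := exists_run ht
    refine ⟨l, ⟨t, hl⟩, ?_⟩
    intro j _
    by_contra hcon
    push Not at hcon
    have h1 := hl.sum_le ((Finset.range h).image (fun i => (((2 * j + 1) * h + i : ℕ) : ℤ)))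
    rw [Finset.sum_image (by
      intro a _ b _ hab
      simp only at hab
      have : (2 * j + 1) * h + a = (2 * j + 1) * h + b := by exact_mod_cast hab
      omega)] at h1
    have h2 : ∑ i ∈ Finset.range h, (L + 1) ≤
        ∑ i ∈ Finset.range h, (l (((2 * j + 1) * h + i : ℕ) : ℤ)).length :=
      Finset.sum_le_sum fun i hi => hcon i (Finset.mem_range.mp hi)
    rw [Finset.sum_const, Finset.card_range, smul_eq_mul] at h2
    have h3 : h * (L + 1) = (L + 1) * h := mul_comm _ _
    omega
  choose! lg hlg using hrun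
  have hpos : ∀ x ∈ F, ∀ j, ∃ i, i < h ∧ (j < m → (lg x (((2 * j + 1) * h + i : ℕ) : ℤ)).length ≤ L) := by
    intro x hx j
    by_cases hj : j < m
    · obtain ⟨i, hi, h2⟩ := (hlg x hx).2 j hj
      exact ⟨i, hi, fun _ => h2⟩
    · exact ⟨0, by omega, fun h' => absurd h' hj⟩
  choose! pos hpos using hpos
  -- the signature
  let Sig : Type := Fin m → Fin h × (Fin L → Option Q)
  let σ : (Fin n → Fin b) → Sig := fun x j =>
    (⟨pos x j % h, Nat.mod_lt _ (by omega)⟩,
      fun i : Fin L => (lg x (((2 * (j : ℕ) + 1) * h + pos x j : ℕ) : ℤ))[(i : ℕ)]?)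
  have hcardSig : Fintype.card Sig = (h * (Fintype.card Q + 1) ^ L) ^ m := by
    simp [Sig, Fintype.card_option]
  have hFc : F.ncard = hFfin.toFinset.card := by
    rw [← Set.ncard_eq_toFinset_card F hFfin]
  rw [hFc, ← hcardSig, ← Finset.card_univ]
  refine Finset.card_le_mul_card_image_of_maps_to (f := σ) (fun _ _ => Finset.mem_univ _) _ ?_
  intro s _
  -- a fibre
  rcases (hFfin.toFinset.filter (fun x => σ x = s)).eq_empty_or_nonempty with hemp | ⟨x₀, hx₀⟩
  · rw [hemp]; simp
  rw [Finset.mem_filter, Set.Finite.mem_toFinset] at hx₀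
  obtain ⟨hx₀F, hx₀s⟩ := hx₀
  set P : ℕ → ℕ := fun j => if j < m then (2 * j + 1) * h + pos x₀ j else n with hPdef
  have hP1 : ∀ j < m, (2 * j + 1) * h ≤ P j ∧ P j ≤ (2 * j + 2) * h := by
    intro j hj
    have h1 := (hpos x₀ hx₀F j).1
    have e : (2 * j + 2) * h = (2 * j + 1) * h + h := by ring
    simp only [hPdef, hj, if_true]
    constructor
    · omega
    · omega
  have hPn : ∀ j < m, P j ≤ n := by
    intro j hj
    have h1 := (hP1 j hj).2
    have h2 : (2 * j + 2) * h ≤ 2 * m * h := Nat.mul_le_mul_right _ (by omega)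
    omega
  have hPmono : Monotone P := by
    apply monotone_nat_of_le_succ
    intro j
    by_cases hj : j + 1 < m
    · have h1 := (hP1 j (by omega)).2
      have h2 := (hP1 (j + 1) hj).1
      have h3 : (2 * j + 2) * h ≤ (2 * (j + 1) + 1) * h := Nat.mul_le_mul_right _ (by omega)
      omega
    · by_cases hj' : j < m
      · have h1 := hPn j hj'
        have h2 : P (j + 1) = n := by simp [hPdef, hj]
        omega
      · simp [hPdef, hj, hj']
  have hPm : n ≤ P m := by simp [hPdef]
  set C : Set (Fin n → Fin b) := {x | x ∈ D ∧ ∃ t l, Run M t M.start 0 (tapeOf letter base x) l ∧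
    ∀ j < m, l (P j : ℤ) = lg x₀ (P j : ℤ)} with hC
  have hCacc : ∀ x ∈ C, x ∈ D ∧ ∃ t, M.Accepts t M.start 0 (tapeOf letter base x) := by
    rintro x ⟨hxD, t, l, hl, _⟩
    exact ⟨hxD, t, hl.accepts⟩
  have hCmix : ∀ j < m, ∀ x ∈ C, ∀ y ∈ C, wmix (P j) x y ∈ C := by
    rintro j hj x ⟨hxD, t, l, hl, hl2⟩ y ⟨hyD, t', l', hl', hl2'⟩
    obtain ⟨s', hs'⟩ := hybrid (p := (P j : ℤ)) hl hl' (by rw [hl2 j hj, hl2' j hj])
    rw [mix_tape] at hs'
    refine ⟨hD _ x hxD y hyD, s', _, hs', ?_⟩
    intro i hi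
    unfold mixLog
    split_ifs
    · exact hl2 i hi
    · exact hl2' i hi
  have hCswap : ∀ x ∈ C, ∀ y ∈ C, ∀ S : Finset ℕ,
      (fun k : Fin n => if blk P m k ∈ S then x k else y k) ∈ C := by
    intro x hx y hy S
    exact swap_mem P hPmono m hPm C hCmix x y hx hy S
  have hsub : ∀ x ∈ hFfin.toFinset.filter (fun x => σ x = s), x ∈ C := by
    intro x hx
    rw [Finset.mem_filter, Set.Finite.mem_toFinset] at hx
    obtain ⟨hxF, hxs⟩ := hx
    obtain ⟨t, ht⟩ := (hlg x hxF).1
    refine ⟨hxF.1, t, lg x, ht, ?_⟩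
    intro j hj
    have h1 : σ x ⟨j, hj⟩ = σ x₀ ⟨j, hj⟩ := by rw [hxs, hx₀s]
    have h2 := congrArg (fun z => (z.1 : ℕ)) h1
    simp only [σ] at h2
    rw [Nat.mod_eq_of_lt (hpos x hxF j).1, Nat.mod_eq_of_lt (hpos x₀ hx₀F j).1] at h2
    have h3 := congrArg (fun z => z.2) h1
    simp only [σ] at h3
    have h4 := list_inj _ _ ((hpos x hxF j).2 hj) ((hpos x₀ hx₀F j).2 hj) h3
    have h5 : P j = (2 * j + 1) * h + pos x₀ j := by simp [hPdef, hj]
    rw [h5, ← h4, h2]
  have hne : C.Nonempty := ⟨x₀, hsub x₀ (by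
    rw [Finset.mem_filter, Set.Finite.mem_toFinset]; exact ⟨hx₀F, hx₀s⟩)⟩
  have hcard : (nontriv (fun k : Fin n => blk P m k) m C).card < τ := by
    obtain ⟨x, hx, y, hy, hxy⟩ := exists_far (fun k : Fin n => blk P m k) m C hne hCswap
      (nontriv (fun k : Fin n => blk P m k) m C) (Finset.Subset.refl _)
    have h1 := reps_ge (fun k : Fin n => blk P m k) C hCswap f φ hf
      (hinj.mono (fun x hx => hCacc x hx)) A (fun x hx => hA x (hCacc x hx).1 (hCacc x hx).2) _ x y hx hy hxy
    have h2 := h1.trans_lt (hr _)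
    exact (Nat.pow_lt_pow_iff_right (by norm_num)).mp h2
  have h1 : (hFfin.toFinset.filter (fun x => σ x = s)).card ≤ C.ncard := by
    rw [← Set.ncard_coe_finset]
    exact Set.ncard_le_ncard (fun x hx => hsub x (by simpa using hx)) (Set.toFinite C)
  have h2 := card_le_blocks (fun k : Fin n => blk P m k) m (fun k => blk_le P m k) C
  refine (h1.trans h2).trans (Nat.pow_le_pow_right hb ?_)
  -- positions in nontrivial blocks
  have h3 : (Finset.univ.filter (fun k : Fin n => blk P m k ∈
      nontriv (fun k : Fin n => blk P m k) m C)).card ≤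
      ∑ j ∈ nontriv (fun k : Fin n => blk P m k) m C,
        (Finset.univ.filter (fun k : Fin n => blk P m k = j)).card := by
    rw [← Finset.card_biUnion]
    · apply Finset.card_le_card
      intro k hk
      simp only [Finset.mem_filter, Finset.mem_univ, true_and] at hk
      simp only [Finset.mem_biUnion, Finset.mem_filter, Finset.mem_univ, true_and]
      exact ⟨_, hk, rfl⟩
    · intro i _ j _ hij
      rw [Function.onFun, Finset.disjoint_left]
      intro k hk hk'
      simp only [Finset.mem_filter, Finset.mem_univ, true_and] at hk hk'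
      exact hij (hk.symm.trans hk')
  refine h3.trans ?_
  calc ∑ j ∈ nontriv (fun k : Fin n => blk P m k) m C,
        (Finset.univ.filter (fun k : Fin n => blk P m k = j)).card
      ≤ ∑ j ∈ nontriv (fun k : Fin n => blk P m k) m C, (3 * h + 2 * m) := by
        refine Finset.sum_le_sum fun j hj => ?_
        have hj' := ((mem_nontriv _ _ _ _).mp hj).1
        rw [Finset.mem_range] at hj'
        exact block_card hm hn' P hPmono hP1 j (by omega)
    _ = (nontriv (fun k : Fin n => blk P m k) m C).card * (3 * h + 2 * m) := by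
        rw [Finset.sum_const, smul_eq_mul]
    _ ≤ τ * (3 * h + 2 * m) := Nat.mul_le_mul_right _ (by omega)

end Pool.Agent.OneTape
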