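import Mathlib

set_option autoImplicit false

namespace Pool.Agent.OneTape

/-- A nondeterministic one-tape machine with state set `Q` and tape alphabet `Γ`. -/
structure Machine (Q Γ : Type) where
  /-- the initial state -/
  start : Q
  /-- the accepting states -/
  accept : Set Q
  /-- `move q a q' a' d`: in state `q` on a cell with symbol `a` the machine may write `a'`,
  move its head by `d` and enter state `q'` -/
  move : Q → Γ → Q → Γ → ℤ → Prop
  /-- the head moves by at most one cell -/
  small : ∀ q a q' a' d, move q a q' a' d → -1 ≤ d ∧ d ≤ 1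

/-- `M.Accepts t q i f`: from state `q`, with the head on cell `i` of the tape `f`, some
computation of exactly `t` steps ends in an accepting state. -/
inductive Machine.Accepts {Q Γ : Type} (M : Machine Q Γ) : ℕ → Q → ℤ → (ℤ → Γ) → Prop
  | halt (q : Q) (i : ℤ) (f : ℤ → Γ) : q ∈ M.accept → Machine.Accepts M 0 q i f
  | step (t : ℕ) (q q' : Q) (a' : Γ) (d i : ℤ) (f : ℤ → Γ) : M.move q (f i) q' a' d →
      Machine.Accepts M t q' (i + d) (Function.update f i a') → Machine.Accepts M (t + 1) q i f

/-- Boundary `b` lies between cells `b - 1` and `b`; it is crossed by a move from `i` to `j`. -/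
def Crossed (i j b : ℤ) : Prop := (i < b ∧ b ≤ j) ∨ (j < b ∧ b ≤ i)

open Classical in
/-- Record a move from `i` to `j` into state `q`. -/
noncomputable def push {Q : Type} (i j : ℤ) (q : Q) (l : ℤ → List Q) : ℤ → List Q :=
  fun b => if Crossed i j b then q :: l b else l b

/-- Accepting computations with the crossing sequences at all boundaries. -/
inductive Run {Q Γ : Type} (M : Machine Q Γ) : ℕ → Q → ℤ → (ℤ → Γ) → (ℤ → List Q) → Prop
  | halt (q : Q) (i : ℤ) (f : ℤ → Γ) : q ∈ M.accept → Run M 0 q i f (fun _ => [])
  | step (t : ℕ) (q q' : Q) (a' : Γ) (d i : ℤ) (f : ℤ → Γ) (l : ℤ → List Q) :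
      M.move q (f i) q' a' d → Run M t q' (i + d) (Function.update f i a') l →
      Run M (t + 1) q i f (push i (i + d) q' l)

theorem Run.accepts {Q Γ : Type} {M : Machine Q Γ} {t : ℕ} {q : Q} {i : ℤ} {f : ℤ → Γ}
    {l : ℤ → List Q} (h : Run M t q i f l) : M.Accepts t q i f := by
  induction h with
  | halt q i f hq => exact Machine.Accepts.halt q i f hq
  | step t q q' a' d i f l hm _ ih => exact Machine.Accepts.step t q q' a' d i f hm ih

theorem exists_run {Q Γ : Type} {M : Machine Q Γ} {t : ℕ} {q : Q} {i : ℤ} {f : ℤ → Γ}
    (h : M.Accepts t q i f) : ∃ l, Run M t q i f l := by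
  induction h with
  | halt q i f hq => exact ⟨_, Run.halt q i f hq⟩
  | step t q q' a' d i f hm _ ih =>
    obtain ⟨l, hl⟩ := ih
    exact ⟨_, Run.step t q q' a' d i f l hm hl⟩

/-- Every step crosses at most one boundary. -/
theorem Run.sum_le {Q Γ : Type} {M : Machine Q Γ} {t : ℕ} {q : Q} {i : ℤ} {f : ℤ → Γ}
    {l : ℤ → List Q} (h : Run M t q i f l) (W : Finset ℤ) :
    ∑ b ∈ W, (l b).length ≤ t := by
  classical
  induction h with
  | halt q i f hq => simp
  | step t q q' a' d i f l hm _ ih =>
    have hd := M.small _ _ _ _ _ hm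
    have h1 : ∀ b, (push i (i + d) q' l b).length = (l b).length + (if Crossed i (i + d) b then 1 else 0) := by
      intro b
      unfold push
      split_ifs <;> simp
    rw [Finset.sum_congr rfl (fun b _ => h1 b), Finset.sum_add_distrib]
    have h2 : ∑ b ∈ W, (if Crossed i (i + d) b then 1 else 0) ≤ 1 := by
      rw [← Finset.card_filter]
      apply Finset.card_le_one.mpr
      intro x hx y hy
      have hx' := (Finset.mem_filter.mp hx).2
      have hy' := (Finset.mem_filter.mp hy).2
      unfold Crossed at hx' hy'
      omega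
    omega

/-- Cut and paste. -/
def mix {α : Type} (p : ℤ) (f g : ℤ → α) : ℤ → α := fun i => if i < p then f i else g i

theorem mix_update_left {α : Type} (p i : ℤ) (hi : i < p) (f g : ℤ → α) (a : α) :
    mix p (Function.update f i a) g = Function.update (mix p f g) i a := by
  funext j
  by_cases hj : j = i
  · subst hj; simp [mix, hi]
  · simp [mix, Function.update_of_ne hj]

theorem mix_update_right {α : Type} (p i : ℤ) (hi : p ≤ i) (f g : ℤ → α) (a : α) :
    mix p f (Function.update g i a) = Function.update (mix p f g) i a := by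
  funext j
  by_cases hj : j = i
  · subst hj; simp [mix, not_lt.mpr hi]
  · simp [mix, Function.update_of_ne hj]

theorem mix_update_left' {α : Type} (p i : ℤ) (hi : p ≤ i) (f g : ℤ → α) (a : α) :
    mix p (Function.update f i a) g = mix p f g := by
  funext j
  by_cases hj : j = i
  · subst hj; simp [mix, not_lt.mpr hi]
  · simp [mix, Function.update_of_ne hj]

theorem mix_update_right' {α : Type} (p i : ℤ) (hi : i < p) (f g : ℤ → α) (a : α) :
    mix p f (Function.update g i a) = mix p f g := by
  funext j
  by_cases hj : j = i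
  · subst hj; simp [mix, hi]
  · simp [mix, Function.update_of_ne hj]

/-- The log on the boundaries `≤ p` from the first run, on the others from the second. -/
def mixLog {Q : Type} (p : ℤ) (l l' : ℤ → List Q) : ℤ → List Q :=
  fun b => if b ≤ p then l b else l' b

theorem stay_left {Q Γ : Type} {M : Machine Q Γ} {p : ℤ} {t : ℕ} {q : Q} {i : ℤ} {f : ℤ → Γ}
    {l : ℤ → List Q} (h : Run M t q i f l) (hi : i < p) (hp : l p = []) :
    ∀ b, p < b → l b = [] := by
  induction h with
  | halt q i f hq => intro b _; rfl
  | step t q q' a' d i f l hm _ ih =>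
    have hd := M.small _ _ _ _ _ hm
    have h1 : ¬ Crossed i (i + d) p := by
      intro hc
      simp [push, hc] at hp
    have h2 : i + d < p := by
      by_contra hcon
      exact h1 (Or.inl ⟨hi, by omega⟩)
    intro b hb
    have h3 : ¬ Crossed i (i + d) b := by
      unfold Crossed; omega
    have h4 : l p = [] := by simpa [push, h1] using hp
    simp only [push, h3, if_false]
    exact ih h2 h4 b hb

theorem stay_right {Q Γ : Type} {M : Machine Q Γ} {p : ℤ} {t : ℕ} {q : Q} {i : ℤ} {f : ℤ → Γ}
    {l : ℤ → List Q} (h : Run M t q i f l) (hi : p ≤ i) (hp : l p = []) :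
    ∀ b, b ≤ p → l b = [] := by
  induction h with
  | halt q i f hq => intro b _; rfl
  | step t q q' a' d i f l hm _ ih =>
    have hd := M.small _ _ _ _ _ hm
    have h1 : ¬ Crossed i (i + d) p := by
      intro hc
      simp [push, hc] at hp
    have h2 : p ≤ i + d := by
      by_contra hcon
      exact h1 (Or.inr ⟨by omega, hi⟩)
    intro b hb
    have h3 : ¬ Crossed i (i + d) b := by
      unfold Crossed; omega
    have h4 : l p = [] := by simpa [push, h1] using hp
    simp only [push, h3, if_false]
    exact ih h2 h4 b hb

end Pool.Agent.OneTape
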