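import Pool.Agent.OneTape.Defs

set_option autoImplicit false

namespace Pool.Agent.OneTape

private theorem push_of_not {Q : Type} {i j b : ℤ} (q : Q) (l : ℤ → List Q)
    (h : ¬ Crossed i j b) : push i j q l b = l b := by
  simp [push, h]

private theorem push_of {Q : Type} {i j b : ℤ} (q : Q) (l : ℤ → List Q)
    (h : Crossed i j b) : push i j q l b = q :: l b := by
  simp [push, h]

/-- Cut and paste for crossing sequences. -/
theorem hybrid_aux {Q Γ : Type} {M : Machine Q Γ} {p : ℤ} : ∀ N : ℕ,
    (∀ (t t' : ℕ) (q q' : Q) (i i' : ℤ) (f f' : ℤ → Γ) (l l' : ℤ → List Q), t + t' ≤ N →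
      Run M t q i f l → Run M t' q' i' f' l' → i < p → i' < p → l p = l' p →
      ∃ s, Run M s q i (mix p f f') (mixLog p l l')) ∧
    (∀ (t t' : ℕ) (q q' : Q) (i i' : ℤ) (f f' : ℤ → Γ) (l l' : ℤ → List Q), t + t' ≤ N →
      Run M t q i f l → Run M t' q' i' f' l' → p ≤ i → p ≤ i' → l p = l' p →
      ∃ s, Run M s q' i' (mix p f f') (mixLog p l l')) := by
  intro N
  induction N using Nat.strong_induction_on with
  | _ N ih =>
  refine ⟨?_, ?_⟩
  · intro t t' q q' i i' f f' l l' hN h h' hi hi' hp
    cases h with
    | halt _ _ _ hq =>
      refine ⟨0, ?_⟩
      have h1 := stay_left h' hi' hp.symm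
      have h2 : mixLog p (fun _ => []) l' = fun _ => [] := by
        funext b
        unfold mixLog
        split_ifs with hb
        · rfl
        · exact h1 b (by omega)
      rw [h2]
      exact Run.halt q i _ hq
    | step t1 _ q1 a1 d _ _ l1 hm hrest =>
      have hd := M.small _ _ _ _ _ hm
      by_cases hcase : i + d < p
      · have hnc : ¬ Crossed i (i + d) p := by unfold Crossed; omega
        rw [push_of_not _ _ hnc] at hp
        obtain ⟨s, hs⟩ := (ih (t1 + t') (by omega)).1 t1 t' q1 q' (i + d) i' _ f' l1 l' le_rfl
          hrest h' hcase hi' hp
        refine ⟨s + 1, ?_⟩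
        rw [mix_update_left p i hi] at hs
        have hm' : M.move q (mix p f f' i) q1 a1 d := by
          simpa [mix, hi] using hm
        have hstep := Run.step s q q1 a1 d i (mix p f f') _ hm' hs
        convert hstep using 1
        funext b
        by_cases hb : b ≤ p
        · by_cases hc : Crossed i (i + d) b
          · simp [mixLog, push, hb, hc]
          · simp [mixLog, push, hb, hc]
        · have hc : ¬ Crossed i (i + d) b := by unfold Crossed; omega
          simp [mixLog, push, hb, hc]
      · have hid : i + d = p := by omega
        have hc : Crossed i (i + d) p := Or.inl ⟨hi, by omega⟩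
        rw [push_of _ _ hc] at hp
        cases h' with
        | halt _ _ _ hq => simp at hp
        | step t1' _ q1' a1' d' _ _ l1' hm' hrest' =>
          have hd' := M.small _ _ _ _ _ hm'
          by_cases hcase' : i' + d' < p
          · have hnc : ¬ Crossed i' (i' + d') p := by unfold Crossed; omega
            rw [push_of_not _ _ hnc] at hp
            have hfull := Run.step t1 q q1 a1 d i f l1 hm hrest
            obtain ⟨s, hs⟩ := (ih (t1 + 1 + t1') (by omega)).1 (t1 + 1) t1' q q1' i (i' + d') f _
              (push i (i + d) q1 l1) l1' le_rfl hfull hrest' hi hcase'
              (by rw [push_of _ _ hc]; exact hp)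
            refine ⟨s, ?_⟩
            rw [mix_update_right' p i' hi'] at hs
            convert hs using 1
            funext b
            by_cases hb : b ≤ p
            · simp [mixLog, hb]
            · have hc' : ¬ Crossed i' (i' + d') b := by unfold Crossed; omega
              simp only [mixLog, hb, if_false]
              exact push_of_not _ _ hc'
          · have hid' : i' + d' = p := by omega
            have hc' : Crossed i' (i' + d') p := Or.inl ⟨hi', by omega⟩
            rw [push_of _ _ hc'] at hp
            obtain ⟨hq, hl⟩ := List.cons.inj hp
            subst hq
            obtain ⟨s, hs⟩ := (ih (t1 + t1') (by omega)).2 t1 t1' q1 q1 (i + d) (i' + d') _ _ l1 l1'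
              le_rfl hrest hrest' (by omega) (by omega) hl
            refine ⟨s + 1, ?_⟩
            have hpos : i' + d' = i + d := by omega
            rw [mix_update_left p i hi, mix_update_right' p i' hi', hpos] at hs
            have hm2 : M.move q (mix p f f' i) q1 a1 d := by
              simpa [mix, hi] using hm
            have hstep := Run.step s q q1 a1 d i (mix p f f') _ hm2 hs
            convert hstep using 1
            funext b
            by_cases hb : b ≤ p
            · by_cases hcb : Crossed i (i + d) b
              · simp only [mixLog, hid, hb, if_true, push]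
              · simp only [mixLog, hid, hb, if_true, push]
            · have hcb : ¬ Crossed i (i + d) b := by unfold Crossed; omega
              have hcb' : ¬ Crossed i' (i' + d') b := by unfold Crossed; omega
              rw [push_of_not _ _ hcb]
              simp only [mixLog, hid, hb, if_false]
              exact push_of_not _ _ hcb'
  · intro t t' q q' i i' f f' l l' hN h h' hi hi' hp
    cases h' with
    | halt _ _ _ hq =>
      refine ⟨0, ?_⟩
      have h1 := stay_right h hi hp
      have h2 : mixLog p l (fun _ => []) = fun _ => [] := by
        funext b
        unfold mixLog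
        split_ifs with hb
        · exact h1 b hb
        · rfl
      rw [h2]
      exact Run.halt q' i' _ hq
    | step t1' _ q1' a1' d' _ _ l1' hm' hrest' =>
      have hd' := M.small _ _ _ _ _ hm'
      by_cases hcase : p ≤ i' + d'
      · have hnc : ¬ Crossed i' (i' + d') p := by unfold Crossed; omega
        rw [push_of_not _ _ hnc] at hp
        obtain ⟨s, hs⟩ := (ih (t + t1') (by omega)).2 t t1' q q1' i (i' + d') f _ l l1' le_rfl
          h hrest' hi hcase hp
        refine ⟨s + 1, ?_⟩
        rw [mix_update_right p i' hi'] at hs
        have hm2 : M.move q' (mix p f f' i') q1' a1' d' := by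
          simpa [mix, not_lt.mpr hi'] using hm'
        have hstep := Run.step s q' q1' a1' d' i' (mix p f f') _ hm2 hs
        convert hstep using 1
        funext b
        by_cases hb : b ≤ p
        · have hc : ¬ Crossed i' (i' + d') b := by unfold Crossed; omega
          rw [push_of_not _ _ hc]
          simp [mixLog, hb]
        · by_cases hc : Crossed i' (i' + d') b
          · simp [mixLog, push, hb, hc]
          · simp [mixLog, push, hb, hc]
      · have hid : i' + d' = p - 1 := by omega
        have hi'p : i' = p := by omega
        have hc' : Crossed i' (i' + d') p := Or.inr ⟨by omega, by omega⟩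
        rw [push_of _ _ hc'] at hp
        cases h with
        | halt _ _ _ hq => simp at hp
        | step t1 _ q1 a1 d _ _ l1 hm hrest =>
          have hd := M.small _ _ _ _ _ hm
          by_cases hcase' : p ≤ i + d
          · have hnc : ¬ Crossed i (i + d) p := by unfold Crossed; omega
            rw [push_of_not _ _ hnc] at hp
            have hfull := Run.step t1' q' q1' a1' d' i' f' l1' hm' hrest'
            obtain ⟨s, hs⟩ := (ih (t1 + (t1' + 1)) (by omega)).2 t1 (t1' + 1) q1 q' (i + d) i' _ f'
              l1 (push i' (i' + d') q1' l1') le_rfl hrest hfull hcase' hi'
              (by rw [push_of _ _ hc']; exact hp)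
            refine ⟨s, ?_⟩
            rw [mix_update_left' p i hi] at hs
            convert hs using 1
            funext b
            by_cases hb : b ≤ p
            · have hcb : ¬ Crossed i (i + d) b := by unfold Crossed; omega
              simp only [mixLog, hb, if_true]
              exact push_of_not _ _ hcb
            · simp [mixLog, hb]
          · have hid2 : i + d = p - 1 := by omega
            have hc : Crossed i (i + d) p := Or.inr ⟨by omega, hi⟩
            rw [push_of _ _ hc] at hp
            obtain ⟨hq, hl⟩ := List.cons.inj hp
            subst hq
            obtain ⟨s, hs⟩ := (ih (t1 + t1') (by omega)).1 t1 t1' q1 q1 (i + d) (i' + d') _ _ l1 l1'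
              le_rfl hrest hrest' (by omega) (by omega) hl
            refine ⟨s + 1, ?_⟩
            have hpos : i + d = i' + d' := by omega
            rw [mix_update_left' p i hi, mix_update_right p i' hi', hpos] at hs
            have hm2 : M.move q' (mix p f f' i') q1 a1' d' := by
              simpa [mix, not_lt.mpr hi'] using hm'
            have hstep := Run.step s q' q1 a1' d' i' (mix p f f') _ hm2 hs
            convert hstep using 1
            funext b
            by_cases hb : b ≤ p
            · by_cases hcb : b = p
              · subst hcb
                have e1 : Crossed i (i + d) b := hc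
                have e2 : Crossed i' (i' + d') b := hc'
                rw [push_of _ _ e2]
                simp [mixLog, push_of _ _ e1]
              · have e1 : ¬ Crossed i (i + d) b := by unfold Crossed; omega
                have e2 : ¬ Crossed i' (i' + d') b := by unfold Crossed; omega
                rw [push_of_not _ _ e2]
                simp only [mixLog, hb, if_true]
                exact push_of_not _ _ e1
            · have e2 : ¬ Crossed i' (i' + d') b := by unfold Crossed; omega
              rw [push_of_not _ _ e2]
              simp only [mixLog, hb, if_false]
              exact push_of_not _ _ e2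

/-- The hybrid of two accepted tapes with the same crossing sequence at `p`. -/
theorem hybrid {Q Γ : Type} {M : Machine Q Γ} {p : ℤ} {t t' : ℕ} {q : Q} {i : ℤ}
    {f f' : ℤ → Γ} {l l' : ℤ → List Q} (h : Run M t q i f l) (h' : Run M t' q i f' l')
    (hp : l p = l' p) : ∃ s, Run M s q i (mix p f f') (mixLog p l l') := by
  rcases lt_or_ge i p with hi | hi
  · exact (hybrid_aux (t + t')).1 t t' q q i i f f' l l' le_rfl h h' hi hi hp
  · exact (hybrid_aux (t + t')).2 t t' q q i i f f' l l' le_rfl h h' hi hi hp

end Pool.Agent.OneTape
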