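import Pool.Agent.OneTape.Core

set_option autoImplicit false

namespace Pool.Agent.OneTape

open Filter Topology

theorem numeric (b τ : ℕ) (hb : 2 ≤ b) (α : ℝ) (hα : 0 < α) :
    ∃ c : ℝ, 0 < c ∧ ∃ m : ℕ, 1 ≤ m ∧ ∀ᶠ n : ℕ in atTop, ∀ q T : ℕ,
      (T : ℝ) * Real.log ((q : ℝ) + 1) ≤ c * (n : ℝ) ^ 2 →
      1 ≤ n / (2 * m) ∧ 2 * m * (n / (2 * m)) ≤ n ∧ n ≤ 2 * m * (n / (2 * m) + 1) ∧
      T < (T / (n / (2 * m)) + 1) * (n / (2 * m)) ∧
      ((b ^ (τ * (3 * (n / (2 * m)) + 2 * m)) *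
        ((n / (2 * m)) * (q + 1) ^ (T / (n / (2 * m)))) ^ m : ℕ) : ℝ) < (b : ℝ) ^ (α * n) := by
  obtain ⟨m₀, hm₀⟩ := exists_nat_ge (6 * (τ : ℝ) / α)
  set m := m₀ + 1 with hm
  have hmR : 6 * (τ : ℝ) / α ≤ m := by
    rw [hm]; push_cast; linarith
  have hm1 : 1 ≤ m := by omega
  have hmpos : (0 : ℝ) < m := by exact_mod_cast hm1
  set lb := Real.log b with hlb
  have hlb0 : 0 < lb := Real.log_pos (by exact_mod_cast (by omega : 1 < b))
  refine ⟨α * lb / (16 * (m : ℝ) ^ 2), by positivity, m, hm1, ?_⟩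
  have hlog : ∀ᶠ n : ℕ in atTop, 2 * (m : ℝ) * τ * lb + m * Real.log n < α / 2 * n * lb := by
    have h1 : Tendsto (fun n : ℕ => Real.log n / n) atTop (𝓝 0) := by
      have := Real.isLittleO_log_id_atTop.tendsto_div_nhds_zero
      exact this.comp tendsto_natCast_atTop_atTop
    have h2 : Tendsto (fun n : ℕ => (2 * (m : ℝ) * τ * lb) / n + m * (Real.log n / n)) atTop
        (𝓝 (0 + m * 0)) := by
      refine Tendsto.add ?_ (h1.const_mul _)
      exact tendsto_const_nhds.div_atTop tendsto_natCast_atTop_atTop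
    rw [mul_zero, add_zero] at h2
    have h3 := h2.eventually_lt_const (by positivity : (0 : ℝ) < α / 2 * lb)
    filter_upwards [h3, eventually_gt_atTop 0] with n hn hn0
    have hn0' : (0 : ℝ) < n := by exact_mod_cast hn0
    have h4 : ((2 * (m : ℝ) * τ * lb) / n + m * (Real.log n / n)) * n < (α / 2 * lb) * n :=
      mul_lt_mul_of_pos_right hn hn0'
    have h5 : ((2 * (m : ℝ) * τ * lb) / n + m * (Real.log n / n)) * n =
        2 * (m : ℝ) * τ * lb + m * Real.log n := by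
      field_simp
    rw [h5] at h4
    linarith
  filter_upwards [hlog, eventually_ge_atTop (4 * m)] with n hn hn4
  intro q T hT
  set h := n / (2 * m) with hh
  have hmm : 0 < 2 * m := by omega
  have hh1 : 1 ≤ h := by
    rw [hh, Nat.le_div_iff_mul_le hmm]; omega
  have hdm := Nat.div_add_mod n (2 * m)
  have hml := Nat.mod_lt n hmm
  have ha : 2 * m * h ≤ n := by rw [hh]; omega
  have hb' : n ≤ 2 * m * (h + 1) := by rw [hh, mul_add]; omega
  have hd : T < (T / h + 1) * h := by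
    have h1 := Nat.div_add_mod T h
    have h2 := Nat.mod_lt T (by omega : 0 < h)
    calc T = h * (T / h) + T % h := h1.symm
      _ < h * (T / h) + h := by omega
      _ = (T / h + 1) * h := by ring
  refine ⟨hh1, ha, hb', hd, ?_⟩
  set L := T / h with hL
  have hn0 : (0 : ℝ) < n := by
    have : 0 < n := by omega
    exact_mod_cast this
  have hhR : (0 : ℝ) < h := by exact_mod_cast hh1
  have hhn : (h : ℝ) ≤ n / (2 * m) := by
    rw [le_div_iff₀ (by positivity)]
    have : h * (2 * m) ≤ n := by rw [mul_comm]; exact ha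
    exact_mod_cast this
  have hhn' : (n : ℝ) / (4 * m) ≤ h := by
    rw [div_le_iff₀ (by positivity)]
    have : n ≤ h * (4 * m) := by
      have e : 2 * m * (h + 1) ≤ h * (4 * m) := by nlinarith
      omega
    exact_mod_cast this
  have hbpos : (0 : ℝ) < b := by positivity
  have hX : (0 : ℝ) < ((b ^ (τ * (3 * h + 2 * m)) * (h * (q + 1) ^ L) ^ m : ℕ) : ℝ) := by
    have : 0 < b ^ (τ * (3 * h + 2 * m)) * (h * (q + 1) ^ L) ^ m := by positivity
    exact_mod_cast this
  rw [← Real.exp_log hX, Real.rpow_def_of_pos hbpos, Real.exp_lt_exp]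
  have hlogX : Real.log ((b ^ (τ * (3 * h + 2 * m)) * (h * (q + 1) ^ L) ^ m : ℕ) : ℝ) =
      (τ : ℝ) * (3 * h + 2 * m) * lb + m * (Real.log h + L * Real.log ((q : ℝ) + 1)) := by
    push_cast
    rw [Real.log_mul (by positivity) (by positivity), Real.log_pow, Real.log_pow,
      Real.log_mul (by positivity) (by positivity), Real.log_pow]
    push_cast
    ring
  rw [hlogX]
  have e1 : (τ : ℝ) * (3 * h) ≤ α / 4 * n := by
    have h1 : 6 * (τ : ℝ) ≤ m * α := by rwa [div_le_iff₀ hα] at hmR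
    have h2 : (τ : ℝ) * (3 * h) ≤ τ * (3 * (n / (2 * m))) := by gcongr
    have h3 : (τ : ℝ) * (3 * (n / (2 * m))) = 6 * τ * n / (4 * m) := by field_simp; ring
    have h4 : 6 * (τ : ℝ) * n / (4 * m) ≤ (m * α) * n / (4 * m) := by gcongr
    have h5 : ((m : ℝ) * α) * n / (4 * m) = α / 4 * n := by field_simp
    linarith
  have e2 : Real.log h ≤ Real.log n := by
    apply Real.log_le_log hhR
    have : h ≤ n := Nat.div_le_self _ _
    exact_mod_cast this
  have hlq : 0 ≤ Real.log ((q : ℝ) + 1) := Real.log_nonneg (by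
    have : (0 : ℝ) ≤ q := Nat.cast_nonneg q
    linarith)
  have e3 : (L : ℝ) * Real.log ((q : ℝ) + 1) ≤ α * lb / (4 * m) * n := by
    have h1 : (L : ℝ) ≤ T / h := Nat.cast_div_le
    calc (L : ℝ) * Real.log ((q : ℝ) + 1) ≤ (T / h) * Real.log ((q : ℝ) + 1) := by gcongr
      _ = (T * Real.log ((q : ℝ) + 1)) / h := by ring
      _ ≤ (α * lb / (16 * (m : ℝ) ^ 2) * (n : ℝ) ^ 2) / h := by gcongr
      _ ≤ (α * lb / (16 * (m : ℝ) ^ 2) * (n : ℝ) ^ 2) / (n / (4 * m)) := by gcongr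
      _ = α * lb / (4 * m) * n := by field_simp; ring
  have e4 : (m : ℝ) * (L * Real.log ((q : ℝ) + 1)) ≤ α / 4 * n * lb := by
    calc (m : ℝ) * (L * Real.log ((q : ℝ) + 1)) ≤ m * (α * lb / (4 * m) * n) := by gcongr
      _ = α / 4 * n * lb := by field_simp
  have e5 : (m : ℝ) * Real.log h ≤ m * Real.log n := by gcongr
  have e6 : (τ : ℝ) * (3 * h) * lb ≤ α / 4 * n * lb := by gcongr
  have e7 : (τ : ℝ) * (3 * h + 2 * m) * lb + m * (Real.log h + L * Real.log ((q : ℝ) + 1)) =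
      τ * (3 * h) * lb + 2 * m * τ * lb + m * Real.log h + m * (L * Real.log ((q : ℝ) + 1)) := by
    ring
  rw [e7]
  have e8 : lb * (α * n) = α * n * lb := by ring
  rw [e8]
  linarith

end Pool.Agent.OneTape
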