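import Pool.Agent.OneTape.Unif2

set_option autoImplicit false

namespace Pool.Agent.OneTape

open Filter Topology

theorem numeric2 (b : ℕ) (hb : 2 ≤ b) (α : ℝ) (hα : 0 < α) :
    ∃ c₁ : ℝ, 0 < c₁ ∧ ∃ c₂ : ℝ, 0 < c₂ ∧ c₂ ≤ 1 ∧ ∀ᶠ n : ℕ in atTop, ∀ q T m R : ℕ, 1 ≤ m →
      (m : ℝ) ^ 2 * ((n : ℝ) + T * Real.log ((q : ℝ) + 1)) ≤ c₁ ^ 2 * (n : ℝ) ^ 2 →
      (R : ℝ) ≤ c₂ * m →
      1 ≤ n / (2 * m) ∧ 2 * m * (n / (2 * m)) ≤ n ∧ n ≤ 2 * m * (n / (2 * m) + 1) ∧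
      T < (T / (n / (2 * m)) + 1) * (n / (2 * m)) ∧
      ((b ^ (R * (3 * (n / (2 * m)) + 2 * m)) *
        ((n / (2 * m)) * (q + 1) ^ (T / (n / (2 * m)))) ^ m : ℕ) : ℝ) < (b : ℝ) ^ (α * n) := by
  set lb := Real.log b with hlb
  have hlb0 : 0 < lb := Real.log_pos (by exact_mod_cast (by omega : 1 < b))
  set c₁ : ℝ := min (1 / 4) (Real.sqrt (α * lb / 16)) with hc₁
  have hc₁0 : 0 < c₁ := lt_min (by norm_num) (Real.sqrt_pos.mpr (by positivity))
  have hc₁a : c₁ ^ 2 ≤ 1 / 16 := by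
    have : c₁ ≤ 1 / 4 := min_le_left _ _
    nlinarith
  have hc₁b : c₁ ^ 2 ≤ α * lb / 16 := by
    have h1 : c₁ ≤ Real.sqrt (α * lb / 16) := min_le_right _ _
    calc c₁ ^ 2 ≤ (Real.sqrt (α * lb / 16)) ^ 2 := by gcongr
      _ = α * lb / 16 := Real.sq_sqrt (by positivity)
  set c₂ : ℝ := min (α / 8) 1 with hc₂
  have hc₂0 : 0 < c₂ := lt_min (by positivity) (by norm_num)
  have hc₂a : c₂ ≤ α / 8 := min_le_left _ _
  refine ⟨c₁, hc₁0, c₂, hc₂0, min_le_right _ _, ?_⟩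
  have hlog : ∀ᶠ n : ℕ in atTop, Real.log n < α * lb * Real.sqrt n := by
    have h1 : Tendsto (fun n : ℕ => Real.log n / Real.sqrt n) atTop (𝓝 0) := by
      have h2 := (isLittleO_log_rpow_atTop (show (0 : ℝ) < 1 / 2 by norm_num)).tendsto_div_nhds_zero
      have h3 := h2.comp tendsto_natCast_atTop_atTop (α := ℕ)
      refine h3.congr fun n => ?_
      simp only [Function.comp_apply]
      rw [Real.sqrt_eq_rpow]
    filter_upwards [h1.eventually_lt_const (by positivity : (0 : ℝ) < α * lb),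
      eventually_gt_atTop 0] with n hn hn0
    have hn0' : (0 : ℝ) < Real.sqrt n := Real.sqrt_pos.mpr (by exact_mod_cast hn0)
    rwa [div_lt_iff₀ hn0'] at hn
  filter_upwards [hlog, eventually_gt_atTop 0] with n hn hn0'
  intro q T m R hm hX hR
  have hn0 : (0 : ℝ) < n := by exact_mod_cast hn0'
  have hmpos : (0 : ℝ) < m := by exact_mod_cast hm
  have hm1R : (1 : ℝ) ≤ m := by exact_mod_cast hm
  have hlq : 0 ≤ Real.log ((q : ℝ) + 1) := Real.log_nonneg (by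
    have : (0 : ℝ) ≤ q := Nat.cast_nonneg q
    linarith)
  have hTl : 0 ≤ (T : ℝ) * Real.log ((q : ℝ) + 1) := by positivity
  have hm2 : (m : ℝ) ^ 2 ≤ c₁ ^ 2 * n := by
    have h1 : (m : ℝ) ^ 2 * n ≤ (c₁ ^ 2 * n) * n := by nlinarith [sq_nonneg (m : ℝ)]
    exact le_of_mul_le_mul_right h1 hn0
  have hmT : (m : ℝ) ^ 2 * (T * Real.log ((q : ℝ) + 1)) ≤ c₁ ^ 2 * (n : ℝ) ^ 2 := by
    nlinarith [sq_nonneg (m : ℝ)]
  have hm16 : (m : ℝ) ^ 2 ≤ n / 16 := by nlinarith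
  have hn4 : 4 * m ≤ n := by
    have : (4 : ℝ) * m ≤ n := by nlinarith
    exact_mod_cast this
  set h := n / (2 * m) with hh
  have hmm : 0 < 2 * m := by omega
  have hh1 : 1 ≤ h := by
    rw [hh, Nat.le_div_iff_mul_le hmm]; omega
  have hdm := Nat.div_add_mod n (2 * m)
  have hml := Nat.mod_lt n hmm
  have ha : 2 * m * h ≤ n := by rw [hh]; omega
  have hb' : n ≤ 2 * m * (h + 1) := by rw [hh, mul_add]; omega
  have hd : T < (T / h + 1) * h := by
    have h1 := Nat.div_add_mod T h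
    have h2 := Nat.mod_lt T (by omega : 0 < h)
    calc T = h * (T / h) + T % h := h1.symm
      _ < h * (T / h) + h := by omega
      _ = (T / h + 1) * h := by ring
  refine ⟨hh1, ha, hb', hd, ?_⟩
  set L := T / h with hL
  have hhR : (0 : ℝ) < h := by exact_mod_cast hh1
  have hhn : (h : ℝ) ≤ n / (2 * m) := by
    rw [le_div_iff₀ (by positivity)]
    have : h * (2 * m) ≤ n := by rw [mul_comm]; exact ha
    exact_mod_cast this
  have hhn' : (n : ℝ) / (4 * m) ≤ h := by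
    rw [div_le_iff₀ (by positivity)]
    have : n ≤ h * (4 * m) := by
      have e : 2 * m * (h + 1) ≤ h * (4 * m) := by nlinarith
      omega
    exact_mod_cast this
  have hbpos : (0 : ℝ) < b := by positivity
  have hXp : (0 : ℝ) < ((b ^ (R * (3 * h + 2 * m)) * (h * (q + 1) ^ L) ^ m : ℕ) : ℝ) := by
    have : 0 < b ^ (R * (3 * h + 2 * m)) * (h * (q + 1) ^ L) ^ m := by positivity
    exact_mod_cast this
  rw [← Real.exp_log hXp, Real.rpow_def_of_pos hbpos, Real.exp_lt_exp]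
  have hlogX : Real.log ((b ^ (R * (3 * h + 2 * m)) * (h * (q + 1) ^ L) ^ m : ℕ) : ℝ) =
      (R : ℝ) * (3 * h + 2 * m) * lb + m * (Real.log h + L * Real.log ((q : ℝ) + 1)) := by
    push_cast
    rw [Real.log_mul (by positivity) (by positivity), Real.log_pow, Real.log_pow,
      Real.log_mul (by positivity) (by positivity), Real.log_pow]
    push_cast
    ring
  rw [hlogX]
  have e1 : (R : ℝ) * (3 * h + 2 * m) ≤ α / 4 * n := by
    have h1 : (m : ℝ) * (3 * h + 2 * m) ≤ 3 / 2 * n + n / 8 := by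
      have h2 : (m : ℝ) * h ≤ n / 2 := by
        calc (m : ℝ) * h ≤ m * (n / (2 * m)) := by gcongr
          _ = n / 2 := by field_simp
      nlinarith
    have h3 : (0 : ℝ) ≤ 3 * h + 2 * m := by positivity
    calc (R : ℝ) * (3 * h + 2 * m) ≤ (c₂ * m) * (3 * h + 2 * m) := by gcongr
      _ = c₂ * (m * (3 * h + 2 * m)) := by ring
      _ ≤ α / 8 * (3 / 2 * n + n / 8) := by gcongr
      _ ≤ α / 4 * n := by nlinarith [mul_pos hα hn0]
  have e2 : Real.log h ≤ Real.log n := by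
    apply Real.log_le_log hhR
    have : h ≤ n := Nat.div_le_self _ _
    exact_mod_cast this
  have e2' : (m : ℝ) * Real.log h ≤ α / 4 * n * lb := by
    have h1 : (m : ℝ) ≤ Real.sqrt n / 4 := by
      have h2 : (m : ℝ) ^ 2 ≤ (Real.sqrt n / 4) ^ 2 := by
        rw [div_pow, Real.sq_sqrt hn0.le]
        linarith
      exact le_of_sq_le_sq h2 (by positivity)
    have h3 : 0 ≤ Real.log h := Real.log_nonneg (by exact_mod_cast hh1)
    calc (m : ℝ) * Real.log h ≤ (Real.sqrt n / 4) * (α * lb * Real.sqrt n) := by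
          apply mul_le_mul h1 (by linarith) h3 (by positivity)
      _ = α / 4 * (Real.sqrt n * Real.sqrt n) * lb := by ring
      _ = α / 4 * n * lb := by rw [Real.mul_self_sqrt hn0.le]
  have e3 : (m : ℝ) * ((L : ℝ) * Real.log ((q : ℝ) + 1)) ≤ α / 4 * n * lb := by
    have h1 : (L : ℝ) ≤ T / h := Nat.cast_div_le
    calc (m : ℝ) * ((L : ℝ) * Real.log ((q : ℝ) + 1)) ≤ m * ((T / h) * Real.log ((q : ℝ) + 1)) := by
          gcongr
      _ = (m * (T * Real.log ((q : ℝ) + 1))) / h := by ring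
      _ ≤ (m * (T * Real.log ((q : ℝ) + 1))) / (n / (4 * m)) := by gcongr
      _ = 4 * (m ^ 2 * (T * Real.log ((q : ℝ) + 1))) / n := by field_simp
      _ ≤ 4 * (c₁ ^ 2 * (n : ℝ) ^ 2) / n := by gcongr
      _ = 4 * c₁ ^ 2 * n := by field_simp
      _ ≤ 4 * (α * lb / 16) * n := by gcongr
      _ = α / 4 * n * lb := by ring
  have e4 : (R : ℝ) * (3 * h + 2 * m) * lb ≤ α / 4 * n * lb := by gcongr
  have e5 : (0 : ℝ) < α * n * lb := by positivity
  have e6 : lb * (α * n) = α * n * lb := by ring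
  rw [e6, mul_add]
  linarith

/-- The quantitative nonuniform theorem. -/
theorem quant (b : ℕ) (hb : 2 ≤ b) (α : ℝ) (hα : 0 < α) :
    ∃ c : ℝ, 0 < c ∧ ∃ n₀ : ℕ, ∀ n : ℕ, n₀ ≤ n → ∀ (A : Set ℕ) (Q Γ : Type) (_ : Fintype Q)
      (M : Machine Q Γ) (blank : Γ) (letter : ℕ → Γ) (ord : List ℕ → List ℕ) (T : ℕ),
      (ord = id ∨ ord = List.reverse) →
      (∀ a t, (Nat.digits b a).length = n → AcceptsNat M blank letter ord b t a → a ∈ A) →
      (b : ℝ) ^ (α * n) ≤ ({a | (Nat.digits b a).length = n ∧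
        ∃ t ≤ T, AcceptsNat M blank letter ord b t a}.ncard : ℝ) →
      ∃ N : ℕ, b ^ (n - 1) ≤ N ∧ N < 2 * b ^ n ∧
        Real.exp (c * n / Real.sqrt (n + T * Real.log ((Fintype.card Q : ℝ) + 1))) ≤
          ({p : ℕ × ℕ | p.1 + p.2 = N ∧ p.1 ∈ A ∧ p.2 ∈ A}.ncard : ℝ) := by
  classical
  obtain ⟨c₁, hc₁, c₂, hc₂, hc₂1, hev⟩ := numeric2 b hb α hα
  obtain ⟨n₀, hn₀⟩ := eventually_atTop.mp hev
  refine ⟨c₁ * c₂ / 8, by positivity, max n₀ 1, ?_⟩
  intro n hn A Q Γ _ M blank letter ord T hord hmem hcard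
  have hn1 : 1 ≤ n := le_trans (le_max_right _ _) hn
  have hnn := hn₀ n (le_trans (le_max_left _ _) hn)
  have hn0 : (0 : ℝ) < n := by exact_mod_cast hn1
  have hbR : (1 : ℝ) < b := by exact_mod_cast (by omega : 1 < b)
  set lq : ℝ := Real.log ((Fintype.card Q : ℝ) + 1) with hlq
  have hlq0 : 0 ≤ lq := Real.log_nonneg (by
    have : (0 : ℝ) ≤ (Fintype.card Q : ℝ) := Nat.cast_nonneg _
    linarith)
  set X : ℝ := n + T * lq with hX
  have hX0 : 0 < X := by positivity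
  have hsX : 0 < Real.sqrt X := Real.sqrt_pos.mpr hX0
  set A' : Set ℕ := {a | (Nat.digits b a).length = n ∧ ∃ t, AcceptsNat M blank letter ord b t a}
    with hA'
  have hA'sub : A' ⊆ A := by
    rintro a ⟨h1, t, ht⟩
    exact hmem a t h1 ht
  have hrange : ∀ a ∈ A', b ^ (n - 1) ≤ a ∧ a < b ^ n := by
    rintro a ⟨h1, -⟩
    constructor
    · have ha0 : a ≠ 0 := by
        rintro rfl
        simp at h1
        omega
      have h2 := Nat.base_pow_length_digits_le b a (by omega) ha0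
      rw [h1] at h2
      obtain ⟨k, rfl⟩ : ∃ k, n = k + 1 := ⟨n - 1, by omega⟩
      rw [pow_succ, mul_comm] at h2
      exact Nat.le_of_mul_le_mul_left h2 (by omega)
    · rw [← h1]
      exact Nat.lt_base_pow_length_digits (by omega)
  have hfinr : ∀ (B : Set ℕ) (N : ℕ), {p : ℕ × ℕ | p.1 + p.2 = N ∧ p.1 ∈ B ∧ p.2 ∈ B}.Finite := by
    intro B N
    apply (Finset.finite_toSet (Finset.HasAntidiagonal.antidiagonal N)).subset
    rintro p ⟨h1, -⟩
    simpa using h1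
  have hmono : ∀ N, {p : ℕ × ℕ | p.1 + p.2 = N ∧ p.1 ∈ A' ∧ p.2 ∈ A'}.ncard ≤
      {p : ℕ × ℕ | p.1 + p.2 = N ∧ p.1 ∈ A ∧ p.2 ∈ A}.ncard := by
    intro N
    apply Set.ncard_le_ncard _ (hfinr A N)
    rintro p ⟨h1, h2, h3⟩
    exact ⟨h1, hA'sub h2, hA'sub h3⟩
  set u : ℝ := c₁ * n / Real.sqrt X with hu
  have hu0 : 0 < u := by positivity
  have hexp : c₁ * c₂ / 8 * n / Real.sqrt X = c₂ * u / 8 := by
    rw [hu]; ring
  rw [hexp]
  have hcard' : ∀ x : ℝ, x ≤ (b : ℝ) ^ (α * n) → x ≤ ({a | (Nat.digits b a).length = n ∧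
      ∃ t ≤ T, AcceptsNat M blank letter ord b t a}.ncard : ℝ) := fun x hx => hx.trans hcard
  rcases lt_or_ge (c₂ * u) 4 with hsmall | hbig
  · -- two different elements
    have h1 : (1 : ℝ) < ({a | (Nat.digits b a).length = n ∧
        ∃ t ≤ T, AcceptsNat M blank letter ord b t a}.ncard : ℝ) :=
      lt_of_lt_of_le (Real.one_lt_rpow hbR (by positivity)) hcard
    have h2 : 1 < ({a | (Nat.digits b a).length = n ∧
        ∃ t ≤ T, AcceptsNat M blank letter ord b t a}).ncard := by exact_mod_cast h1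
    have hfin : ({a | (Nat.digits b a).length = n ∧
        ∃ t ≤ T, AcceptsNat M blank letter ord b t a}).Finite := by
      by_contra hinf
      rw [Set.Infinite.ncard hinf] at h2
      omega
    obtain ⟨x, hx, y, hy, hxy⟩ := (Set.one_lt_ncard hfin).mp h2
    have hxA : x ∈ A' := ⟨hx.1, hx.2.imp fun t ht => ht.2⟩
    have hyA : y ∈ A' := ⟨hy.1, hy.2.imp fun t ht => ht.2⟩
    have hxr := hrange x hxA
    have hyr := hrange y hyA
    refine ⟨x + y, by omega, by omega, ?_⟩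
    have h3 : 2 ≤ {p : ℕ × ℕ | p.1 + p.2 = x + y ∧ p.1 ∈ A ∧ p.2 ∈ A}.ncard := by
      have h4 : ({(x, y), (y, x)} : Set (ℕ × ℕ)) ⊆
          {p : ℕ × ℕ | p.1 + p.2 = x + y ∧ p.1 ∈ A ∧ p.2 ∈ A} := by
        rintro p (rfl | rfl)
        · exact ⟨rfl, hA'sub hxA, hA'sub hyA⟩
        · exact ⟨add_comm _ _, hA'sub hyA, hA'sub hxA⟩
      have h5 : ({(x, y), (y, x)} : Set (ℕ × ℕ)).ncard = 2 := by
        apply Set.ncard_pair
        intro h
        exact hxy (Prod.mk.inj h).1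
      rw [← h5]
      exact Set.ncard_le_ncard h4 (hfinr A _)
    have h6 : Real.exp (c₂ * u / 8) ≤ 2 := by
      rw [← Real.le_log_iff_exp_le (by norm_num)]
      have := Real.log_two_gt_d9
      linarith
    exact h6.trans (by exact_mod_cast h3)
  · set m : ℕ := ⌊u⌋₊ with hm
    set R : ℕ := ⌊c₂ * m⌋₊ with hR
    have hu4 : 4 ≤ u := by nlinarith
    have hmle : (m : ℝ) ≤ u := Nat.floor_le hu0.le
    have hmge : u / 2 ≤ m := by
      have := Nat.lt_floor_add_one u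
      rw [← hm] at this
      linarith
    have hm1 : 1 ≤ m := by
      have : (1 : ℝ) ≤ m := by linarith
      exact_mod_cast this
    have hRle : (R : ℝ) ≤ c₂ * m := Nat.floor_le (by positivity)
    have hRge : c₂ * u / 4 ≤ R := by
      have h1 := Nat.lt_floor_add_one (c₂ * (m : ℝ))
      rw [← hR] at h1
      have h2 : c₂ * (u / 2) ≤ c₂ * m := by gcongr
      linarith
    have hmX : (m : ℝ) ^ 2 * (n + T * Real.log ((Fintype.card Q : ℝ) + 1)) ≤
        c₁ ^ 2 * (n : ℝ) ^ 2 := by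
      have h1 : (m : ℝ) ^ 2 ≤ u ^ 2 := by gcongr
      have h2 : u ^ 2 * X = c₁ ^ 2 * (n : ℝ) ^ 2 := by
        rw [hu, div_pow, Real.sq_sqrt hX0.le]
        field_simp
      calc (m : ℝ) ^ 2 * (n + T * Real.log ((Fintype.card Q : ℝ) + 1)) = (m : ℝ) ^ 2 * X := rfl
        _ ≤ u ^ 2 * X := by gcongr
        _ = c₁ ^ 2 * (n : ℝ) ^ 2 := h2
    obtain ⟨h1, h2, h3, h4, h5⟩ := hnn (Fintype.card Q) T m R hm1 hmX hRle
    have hex : ∃ N : ℕ, 2 ^ R ≤ {p : ℕ × ℕ | p.1 + p.2 = N ∧ p.1 ∈ A' ∧ p.2 ∈ A'}.ncard := by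
      by_contra hcon
      push Not at hcon
      have h6 := layer_core hb M blank letter ord hord A' hm1 hn1 h1 h2 h3 h4
        (fun a t ha ht => ⟨ha, t, ht⟩) hcon
      have h7 : ({a | (Nat.digits b a).length = n ∧
          ∃ t ≤ T, AcceptsNat M blank letter ord b t a}.ncard : ℝ) ≤
          ((b ^ (R * (3 * (n / (2 * m)) + 2 * m)) *
            ((n / (2 * m)) * (Fintype.card Q + 1) ^ (T / (n / (2 * m)))) ^ m : ℕ) : ℝ) := by
        exact_mod_cast h6
      linarith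
    obtain ⟨N, hN⟩ := hex
    have hne : {p : ℕ × ℕ | p.1 + p.2 = N ∧ p.1 ∈ A' ∧ p.2 ∈ A'}.Nonempty := by
      rw [Set.nonempty_iff_ne_empty]
      intro h0
      rw [h0, Set.ncard_empty] at hN
      have : 0 < 2 ^ R := by positivity
      omega
    obtain ⟨p, hp1, hp2, hp3⟩ := hne
    have hr1 := hrange _ hp2
    have hr2 := hrange _ hp3
    refine ⟨N, by omega, by omega, ?_⟩
    have h6 : Real.exp (c₂ * u / 8) ≤ (2 : ℝ) ^ R := by
      have h7 : (2 : ℝ) ^ R = Real.exp (R * Real.log 2) := by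
        rw [mul_comm, ← Real.rpow_natCast, Real.rpow_def_of_pos (by norm_num)]
      rw [h7, Real.exp_le_exp]
      have := Real.log_two_gt_d9
      have h8 : (c₂ * u / 4) * (1 / 2) ≤ R * Real.log 2 := by
        apply mul_le_mul hRge (by linarith) (by norm_num) (Nat.cast_nonneg _)
      linarith
    calc Real.exp (c₂ * u / 8) ≤ (2 : ℝ) ^ R := h6
      _ ≤ ({p : ℕ × ℕ | p.1 + p.2 = N ∧ p.1 ∈ A' ∧ p.2 ∈ A'}.ncard : ℝ) := by exact_mod_cast hN
      _ ≤ _ := by exact_mod_cast hmono N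

end Pool.Agent.OneTape
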