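import Pool.Agent.OneTape.Quant

set_option autoImplicit false

namespace Pool.Agent.OneTape

open Filter Topology

/-- A set which is dense up to infinitely many `N` has infinitely many dense layers. -/
theorem dense_layers (b : ℕ) (hb : 2 ≤ b) (α : ℝ) (hα : 0 < α) (A : Set ℕ)
    (hdens : ∃ᶠ N : ℕ in atTop, (N : ℝ) ^ α ≤ ((A ∩ Set.Icc 1 N).ncard : ℝ)) :
    ∃ᶠ n : ℕ in atTop, (b : ℝ) ^ (α / 2 * n) ≤ ((lay b A n).ncard : ℝ) := by
  classical
  by_contra hcon
  rw [not_frequently] at hcon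
  have h1 : ∀ᶠ n : ℕ in atTop, ((lay b A n).ncard : ℝ) ≤ (b : ℝ) ^ (α / 2 * n) := by
    filter_upwards [hcon] with n hn
    exact (not_le.mp hn).le
  have hb0 : (0 : ℝ) < b := by positivity
  have hb1 : (1 : ℝ) ≤ b := by exact_mod_cast (by omega : 1 ≤ b)
  obtain ⟨n₀, hn₀⟩ := eventually_atTop.mp h1
  set C : ℝ := ∑ n ∈ Finset.range n₀, (b : ℝ) ^ n with hC
  obtain ⟨l₀, hl₀⟩ := eventually_atTop.mp (growth b hb α C hα)
  obtain ⟨N, hN, hNbig⟩ := (hdens.and_eventually (eventually_ge_atTop (b ^ l₀))).exists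
  have hN0 : N ≠ 0 := by
    have : 0 < b ^ l₀ := by positivity
    omega
  set l := (Nat.digits b N).length with hl
  have hlN : N < b ^ l := Nat.lt_base_pow_length_digits (by omega)
  have hll : l₀ ≤ l := by
    have : b ^ l₀ < b ^ l := by omega
    exact ((Nat.pow_lt_pow_iff_right (by omega)).mp this).le
  have hNl : b ^ l ≤ b * N := Nat.base_pow_length_digits_le b N (by omega) hN0
  -- lower bound for N ^ α
  have h2 : (b : ℝ) ^ (α * l) / (b : ℝ) ^ α ≤ (N : ℝ) ^ α := by
    rw [div_le_iff₀ (Real.rpow_pos_of_pos hb0 _), ← Real.mul_rpow (by positivity) (by positivity)]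
    have h3 : (b : ℝ) ^ (α * l) = ((b : ℝ) ^ l) ^ α := by
      rw [← Real.rpow_natCast, ← Real.rpow_mul hb0.le]; congr 1; ring
    rw [h3]
    apply Real.rpow_le_rpow (by positivity) _ hα.le
    have : (b : ℝ) ^ l ≤ b * N := by exact_mod_cast hNl
    linarith
  -- upper bound for the counting function
  have h3 : ((A ∩ Set.Icc 1 N).ncard : ℝ) ≤ C + (l + 1) * (b : ℝ) ^ (α / 2 * l) := by
    have hsub : A ∩ Set.Icc 1 N ⊆ ⋃ n ∈ Finset.range (l + 1), lay b A n := by
      rintro a ⟨haB, _, haN⟩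
      simp only [Set.mem_iUnion, Finset.mem_range]
      refine ⟨(Nat.digits b a).length, ?_, haB, rfl⟩
      have := Nat.le_length_digits_le b a N haN
      omega
    have hfin : (⋃ n ∈ Finset.range (l + 1), lay b A n).Finite := by
      apply Set.Finite.biUnion (Finset.finite_toSet _)
      intro n _
      exact (Set.finite_Iio _).subset (lay_sub b hb A n)
    have h4 : (A ∩ Set.Icc 1 N).ncard ≤ ∑ n ∈ Finset.range (l + 1), (lay b A n).ncard :=
      (Set.ncard_le_ncard hsub hfin).trans (Finset.set_ncard_biUnion_le _ _)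
    have h5 : ((A ∩ Set.Icc 1 N).ncard : ℝ) ≤ ∑ n ∈ Finset.range (l + 1), ((lay b A n).ncard : ℝ) := by
      exact_mod_cast h4
    refine h5.trans ?_
    have h6 : ∀ n ∈ Finset.range (l + 1), ((lay b A n).ncard : ℝ) ≤
        (if n < n₀ then (b : ℝ) ^ n else 0) + (b : ℝ) ^ (α / 2 * l) := by
      intro n hn
      rw [Finset.mem_range] at hn
      split_ifs with hlt
      · have h7 : (lay b A n).ncard ≤ b ^ n := by
          calc (lay b A n).ncard ≤ (Set.Iio (b ^ n)).ncard :=
                Set.ncard_le_ncard (lay_sub b hb A n) (Set.finite_Iio _)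
            _ = b ^ n := by
                rw [← Finset.coe_Iio, Set.ncard_coe_finset, Nat.card_Iio]
        have h8 : ((lay b A n).ncard : ℝ) ≤ (b : ℝ) ^ n := by exact_mod_cast h7
        have : (0 : ℝ) ≤ (b : ℝ) ^ (α / 2 * l) := by positivity
        linarith
      · rw [zero_add]
        refine (hn₀ n (by omega)).trans ?_
        apply Real.rpow_le_rpow_of_exponent_le hb1
        have : (n : ℝ) ≤ l := by exact_mod_cast (by omega : n ≤ l)
        have hα2 : 0 ≤ α / 2 := by positivity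
        exact mul_le_mul_of_nonneg_left this hα2
    refine (Finset.sum_le_sum h6).trans ?_
    rw [Finset.sum_add_distrib, Finset.sum_const, Finset.card_range, nsmul_eq_mul]
    push_cast
    gcongr
    rw [← Finset.sum_filter, hC]
    apply Finset.sum_le_sum_of_subset_of_nonneg
    · intro n hn
      simp only [Finset.mem_filter, Finset.mem_range] at hn ⊢
      exact hn.2
    · intro n _ _
      positivity
  have h4 := hl₀ l hll
  linarith

/-- The quantitative theorem for one machine. -/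
theorem uniform_quant (b : ℕ) (hb : 2 ≤ b) (α : ℝ) (hα : 0 < α) {Q Γ : Type} [Fintype Q]
    (M : Machine Q Γ) (blank : Γ) (letter : ℕ → Γ) (ord : List ℕ → List ℕ)
    (hord : ord = id ∨ ord = List.reverse) (T : ℕ → ℕ) (A : Set ℕ)
    (hdec : ∀ a, a ∈ A ↔ ∃ t, AcceptsNat M blank letter ord b t a)
    (htime : ∀ a ∈ A, ∃ t ≤ T (Nat.digits b a).length, AcceptsNat M blank letter ord b t a)
    (hdens : ∃ᶠ N : ℕ in atTop, (N : ℝ) ^ α ≤ ((A ∩ Set.Icc 1 N).ncard : ℝ)) :
    ∃ c : ℝ, 0 < c ∧ ∃ᶠ n : ℕ in atTop, ∃ N : ℕ, b ^ (n - 1) ≤ N ∧ N < 2 * b ^ n ∧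
      Real.exp (c * n / Real.sqrt (n + T n)) ≤
        ({p : ℕ × ℕ | p.1 + p.2 = N ∧ p.1 ∈ A ∧ p.2 ∈ A}.ncard : ℝ) := by
  classical
  obtain ⟨c, hc, n₀, hn₀⟩ := quant b hb (α / 2) (by positivity)
  set lq : ℝ := Real.log ((Fintype.card Q : ℝ) + 1) with hlq
  have hlq0 : 0 ≤ lq := Real.log_nonneg (by
    have : (0 : ℝ) ≤ (Fintype.card Q : ℝ) := Nat.cast_nonneg _
    linarith)
  refine ⟨c / Real.sqrt (1 + lq), by positivity, ?_⟩
  have hfr := (dense_layers b hb α hα A hdens).and_eventually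
    ((eventually_ge_atTop n₀).and (eventually_gt_atTop 0))
  refine hfr.mono ?_
  rintro n ⟨hn, hn1, hn2⟩
  have hn0 : (0 : ℝ) < n := by exact_mod_cast hn2
  obtain ⟨N, h1, h2, h3⟩ := hn₀ n hn1 A Q Γ _ M blank letter ord (T n) hord
    (fun a t _ ht => (hdec a).mpr ⟨t, ht⟩) (by
      refine hn.trans ?_
      have h7 : (lay b A n).ncard ≤ {a | (Nat.digits b a).length = n ∧
          ∃ t ≤ T n, AcceptsNat M blank letter ord b t a}.ncard := by
        apply Set.ncard_le_ncard
        · rintro a ⟨haA, halen⟩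
          refine ⟨halen, ?_⟩
          have := htime a haA
          rwa [halen] at this
        · apply (Set.finite_Iio (b ^ n)).subset
          rintro a ⟨halen, _⟩
          rw [Set.mem_Iio, ← halen]
          exact Nat.lt_base_pow_length_digits (by omega)
      exact_mod_cast h7)
  refine ⟨N, h1, h2, le_trans ?_ h3⟩
  apply Real.exp_le_exp.mpr
  have hT0 : (0 : ℝ) ≤ T n := Nat.cast_nonneg _
  have h4 : Real.sqrt (n + T n * lq) ≤ Real.sqrt (1 + lq) * Real.sqrt (n + T n) := by
    rw [← Real.sqrt_mul (by positivity)]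
    apply Real.sqrt_le_sqrt
    have e : (1 + lq) * ((n : ℝ) + T n) = (n + T n * lq) + (lq * n + T n) := by ring
    rw [e]
    exact le_add_of_nonneg_right (by positivity)
  have h5 : 0 < Real.sqrt (n + T n * lq) := Real.sqrt_pos.mpr (by positivity)
  calc c / Real.sqrt (1 + lq) * n / Real.sqrt (n + T n)
      = c * n / (Real.sqrt (1 + lq) * Real.sqrt (n + T n)) := by
        field_simp
    _ ≤ c * n / Real.sqrt (n + T n * lq) := by gcongr

end Pool.Agent.OneTape
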