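import Pool.Agent.OneTape.Num

set_option autoImplicit false

namespace Pool.Agent.OneTape

open Filter Topology

theorem nonuniform (b R : ℕ) (α : ℝ) (hb : 2 ≤ b) (hα : 0 < α) :
    ∃ c : ℝ, 0 < c ∧ ∀ A : Set ℕ,
      (∃ᶠ n : ℕ in atTop, ∃ (Q Γ : Type) (_ : Fintype Q) (M : Machine Q Γ)
        (letter : ℤ → Fin b → Γ) (base : ℤ → Γ) (φ : Fin n → Fin b → ℕ) (T : ℕ),
        Set.InjOn (fun x : Fin n → Fin b => ∑ k, φ k (x k))
          {x | ∃ t, M.Accepts t M.start 0 (tapeOf letter base x)} ∧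
        (∀ x : Fin n → Fin b, (∃ t, M.Accepts t M.start 0 (tapeOf letter base x)) →
          ∑ k, φ k (x k) ∈ A) ∧
        (b : ℝ) ^ (α * n) ≤
          ({x : Fin n → Fin b | ∃ t ≤ T, M.Accepts t M.start 0 (tapeOf letter base x)}.ncard : ℝ) ∧
        (T : ℝ) * Real.log ((Fintype.card Q : ℝ) + 1) ≤ c * (n : ℝ) ^ 2) →
      ∃ N : ℕ, R ≤ {p : ℕ × ℕ | p.1 + p.2 = N ∧ p.1 ∈ A ∧ p.2 ∈ A}.ncard := by
  obtain ⟨c, hc, m, hm, hev⟩ := numeric b R hb α hα
  refine ⟨c, hc, ?_⟩
  intro A hA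
  by_contra hcon
  push Not at hcon
  have hr : ∀ N : ℕ, {p : ℕ × ℕ | p.1 + p.2 = N ∧ p.1 ∈ A ∧ p.2 ∈ A}.ncard < 2 ^ R :=
    fun N => (hcon N).trans Nat.lt_two_pow_self
  obtain ⟨n, ⟨Q, Γ, _, M, letter, base, φ, T, hinj, hmem, hcard, hT⟩, hn⟩ := (hA.and_eventually hev).exists
  obtain ⟨h1, h2, h3, h4, h5⟩ := hn (Fintype.card Q) T hT
  have h6 := core (τ := R) M letter base A hm h1 h2 h3 (by omega : 1 ≤ b) h4 Set.univ
    (fun _ _ _ _ _ => Set.mem_univ _) (fun x => ∑ k, φ k (x k)) φ (fun _ => rfl)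
    (by simpa using hinj) (fun x _ hx => hmem x hx) hr
  simp only [Set.mem_univ, true_and] at h6
  have h7 : ({x : Fin n → Fin b | ∃ t ≤ T, M.Accepts t M.start 0 (tapeOf letter base x)}.ncard : ℝ) ≤
      ((b ^ (R * (3 * (n / (2 * m)) + 2 * m)) *
        ((n / (2 * m)) * (Fintype.card Q + 1) ^ (T / (n / (2 * m)))) ^ m : ℕ) : ℝ) := by
    exact_mod_cast h6
  linarith

/-- The tape with the word `w` on the cells `0, ..., |w| - 1` and blanks elsewhere. -/
def wordTape {Γ : Type} (blank : Γ) (letter : ℕ → Γ) (w : List ℕ) : ℤ → Γ :=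
  fun i => if 0 ≤ i ∧ i < (w.length : ℤ) then letter (w.getD i.toNat 0) else blank

theorem wordTape_ofFn {n b : ℕ} {Γ : Type} (blank : Γ) (letter : ℕ → Γ) (x : Fin n → Fin b) :
    wordTape blank letter (List.ofFn (fun k => ((x k : Fin b) : ℕ))) =
      tapeOf (fun _ d => letter (d : ℕ)) (fun _ => blank) x := by
  funext i
  unfold wordTape tapeOf
  rw [List.length_ofFn]
  by_cases h : 0 ≤ i ∧ i < (n : ℤ)
  · simp only [h, and_self, if_true, dif_pos]
    congr 1
    rw [List.getD_eq_getElem _ _ (by rw [List.length_ofFn]; omega), List.getElem_ofFn]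
  · simp only [h, if_false, dif_neg, not_false_eq_true]

theorem sum_eq_ofDigits {b : ℕ} : ∀ {n : ℕ} (y : Fin n → ℕ),
    ∑ k, y k * b ^ (k : ℕ) = Nat.ofDigits b (List.ofFn y) := by
  intro n
  induction n with
  | zero => intro y; simp
  | succ n ih =>
    intro y
    rw [Fin.sum_univ_succ, List.ofFn_succ, Nat.ofDigits_cons, ← ih, Finset.mul_sum]
    simp only [Fin.val_zero, pow_zero, mul_one, Fin.val_succ]
    congr 1
    refine Finset.sum_congr rfl fun k _ => ?_
    ring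

theorem digits_sum {b n : ℕ} (hb : 2 ≤ b) (y : Fin n → ℕ) (hy : ∀ k, y k < b)
    (htop : ∀ k : Fin n, (k : ℕ) + 1 = n → y k ≠ 0) :
    Nat.digits b (∑ k, y k * b ^ (k : ℕ)) = List.ofFn y := by
  rw [sum_eq_ofDigits]
  apply Nat.digits_ofDigits b (by omega)
  · intro l hl
    rw [List.mem_ofFn] at hl
    obtain ⟨k, rfl⟩ := hl
    exact hy k
  · intro hne
    have hn : 0 < n := by
      rcases Nat.eq_zero_or_pos n with h | h
      · subst h; simp at hne
      · exact h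
    rw [List.getLast_eq_getElem, List.getElem_ofFn]
    apply htop
    simp only [List.length_ofFn]
    omega

theorem ord_spec (ord : List ℕ → List ℕ) (hord : ord = id ∨ ord = List.reverse) (n : ℕ) :
    ∃ e : Fin n ≃ Fin n, ∀ y : Fin n → ℕ, ord (List.ofFn y) = List.ofFn (fun k => y (e k)) := by
  rcases hord with h | h
  · exact ⟨Equiv.refl _, fun y => by simp [h]⟩
  · refine ⟨Fin.revPerm, fun y => ?_⟩
    rw [h]
    apply List.ext_getElem
    · simp
    · intro i h1 h2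
      simp only [List.getElem_reverse, List.getElem_ofFn, Fin.revPerm_apply, List.length_ofFn]
      congr 1
      apply Fin.ext
      simp only [Fin.val_rev]
      omega

end Pool.Agent.OneTape
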