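import Pool.Agent.OneTape.Unif

set_option autoImplicit false

namespace Pool.Agent.OneTape

open Filter Topology

/-- The machine `M` accepts the number `a`, written in base `b` (digits in the order given by
`ord`), in exactly `t` steps. -/
def AcceptsNat {Q Γ : Type} (M : Machine Q Γ) (blank : Γ) (letter : ℕ → Γ)
    (ord : List ℕ → List ℕ) (b t a : ℕ) : Prop :=
  M.Accepts t M.start 0 (wordTape blank letter (ord (Nat.digits b a)))

theorem layer_core {b R n m T : ℕ} (hb : 2 ≤ b) {Q Γ : Type} [Fintype Q]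
    (M : Machine Q Γ) (blank : Γ) (letter : ℕ → Γ) (ord : List ℕ → List ℕ)
    (hord : ord = id ∨ ord = List.reverse) (A : Set ℕ) (hm : 1 ≤ m) (hn0 : 0 < n)
    (h1 : 1 ≤ n / (2 * m)) (h2 : 2 * m * (n / (2 * m)) ≤ n) (h3 : n ≤ 2 * m * (n / (2 * m) + 1))
    (h4 : T < (T / (n / (2 * m)) + 1) * (n / (2 * m)))
    (hmem : ∀ a t, (Nat.digits b a).length = n → AcceptsNat M blank letter ord b t a → a ∈ A)
    (hr : ∀ N : ℕ, {p : ℕ × ℕ | p.1 + p.2 = N ∧ p.1 ∈ A ∧ p.2 ∈ A}.ncard < 2 ^ R) :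
    {a | (Nat.digits b a).length = n ∧ ∃ t ≤ T, AcceptsNat M blank letter ord b t a}.ncard ≤
      b ^ (R * (3 * (n / (2 * m)) + 2 * m)) *
        ((n / (2 * m)) * (Fintype.card Q + 1) ^ (T / (n / (2 * m)))) ^ m := by
  classical
  obtain ⟨e, he⟩ := ord_spec ord hord n
  set D : Set (Fin n → Fin b) := {x | ∀ k : Fin n, (e k : ℕ) + 1 = n → (x k : ℕ) ≠ 0} with hD
  set f : (Fin n → Fin b) → ℕ := fun x => ∑ k, (x k : ℕ) * b ^ (e k : ℕ) with hf
  have hfy : ∀ x, f x = ∑ i : Fin n, ((x (e.symm i) : Fin b) : ℕ) * b ^ (i : ℕ) := by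
    intro x
    rw [hf]
    rw [← Equiv.sum_comp e (fun i : Fin n => ((x (e.symm i) : Fin b) : ℕ) * b ^ (i : ℕ))]
    simp
  have hdig : ∀ x ∈ D, Nat.digits b (f x) = List.ofFn (fun i => ((x (e.symm i) : Fin b) : ℕ)) := by
    intro x hx
    rw [hfy]
    apply digits_sum hb
    · intro k; exact (x (e.symm k)).2
    · intro k hk
      apply hx
      simpa using hk
  have htape : ∀ x ∈ D, wordTape blank letter (ord (Nat.digits b (f x))) =
      tapeOf (fun _ d => letter (d : ℕ)) (fun _ => blank) x := by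
    intro x hx
    rw [hdig x hx, he]
    simp only [Equiv.symm_apply_apply]
    exact wordTape_ofFn blank letter x
  have hinjD : Set.InjOn f D := by
    intro x hx y hy hxy
    have h6 : List.ofFn (fun i => ((x (e.symm i) : Fin b) : ℕ)) =
        List.ofFn (fun i => ((y (e.symm i) : Fin b) : ℕ)) := by
      rw [← hdig x hx, ← hdig y hy, hxy]
    have h7 := List.ofFn_injective h6
    funext k
    apply Fin.ext
    have := congrFun h7 (e k)
    simpa using this
  have h6 := core (τ := R) M (fun _ d => letter (d : ℕ)) (fun _ => blank) A hm h1 h2 h3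
    (by omega : 1 ≤ b) h4 D
    (by
      intro p x hx y hy k hk
      unfold wmix
      split_ifs
      · exact hx k hk
      · exact hy k hk) f (fun k d => (d : ℕ) * b ^ (e k : ℕ)) (fun _ => rfl)
    (hinjD.mono (fun x hx => hx.1))
    (by
      rintro x hx ⟨t, hacc⟩
      refine hmem (f x) t ?_ ?_
      · rw [hdig x hx, List.length_ofFn]
      · unfold AcceptsNat
        rw [htape x hx]
        exact hacc) hr
  have h7 : {a | (Nat.digits b a).length = n ∧ ∃ t ≤ T, AcceptsNat M blank letter ord b t a}.ncard ≤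
      {x : Fin n → Fin b | x ∈ D ∧ ∃ t ≤ T, M.Accepts t M.start 0
      (tapeOf (fun _ d => letter (d : ℕ)) (fun _ => blank) x)}.ncard := by
    have hsub : {a | (Nat.digits b a).length = n ∧ ∃ t ≤ T, AcceptsNat M blank letter ord b t a} ⊆
      f '' {x : Fin n → Fin b | x ∈ D ∧ ∃ t ≤ T, M.Accepts t M.start 0
      (tapeOf (fun _ d => letter (d : ℕ)) (fun _ => blank) x)} := by
      rintro a ⟨halen, t, ht, hacc⟩
      have hlt : ∀ i : ℕ, i < n → (Nat.digits b a).getD i 0 < b := by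
        intro i hi
        rw [List.getD_eq_getElem _ _ (by omega)]
        exact Nat.digits_lt_base (by omega) (List.getElem_mem _)
      let x : Fin n → Fin b := fun k => ⟨(Nat.digits b a).getD (e k) 0, hlt _ (e k).2⟩
      have hx1 : List.ofFn (fun i => ((x (e.symm i) : Fin b) : ℕ)) = Nat.digits b a := by
        apply List.ext_getElem
        · simp [halen]
        · intro i h8 h9
          simp only [List.getElem_ofFn, x, Equiv.apply_symm_apply]
          exact List.getD_eq_getElem _ _ h9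
      have hxD : x ∈ D := by
        intro k hk
        simp only [x]
        have hne : Nat.digits b a ≠ [] := by
          intro h8
          rw [h8] at halen
          simp at halen
          omega
        have h8 := Nat.getLast_digit_ne_zero b (m := a) (by
          rintro rfl
          simp at hne)
        rw [List.getLast_eq_getElem] at h8
        rw [List.getD_eq_getElem _ _ (by have := (e k).2; omega)]
        have h9 : (e k : ℕ) = (Nat.digits b a).length - 1 := by omega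
        simp only [h9]
        exact h8
      have hfx : f x = a := by
        rw [hfy, sum_eq_ofDigits, hx1, Nat.ofDigits_digits]
      refine ⟨x, ⟨hxD, t, ht, ?_⟩, hfx⟩
      unfold AcceptsNat at hacc
      rw [← htape x hxD, hfx]
      exact hacc
    exact (Set.ncard_le_ncard hsub ((Set.toFinite _).image f)).trans (Set.ncard_image_le (Set.toFinite _))
  exact h7.trans h6

/-- The nonuniform theorem. -/
theorem nonuniform_nat (b R : ℕ) (α : ℝ) (hb : 2 ≤ b) (hα : 0 < α) :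
    ∃ c : ℝ, 0 < c ∧ ∀ A : Set ℕ,
      (∃ᶠ n : ℕ in atTop, ∃ (Q Γ : Type) (_ : Fintype Q) (M : Machine Q Γ) (blank : Γ)
        (letter : ℕ → Γ) (ord : List ℕ → List ℕ) (T : ℕ),
        (ord = id ∨ ord = List.reverse) ∧
        (∀ a t, (Nat.digits b a).length = n → AcceptsNat M blank letter ord b t a → a ∈ A) ∧
        (b : ℝ) ^ (α * n) ≤ ({a | (Nat.digits b a).length = n ∧
          ∃ t ≤ T, AcceptsNat M blank letter ord b t a}.ncard : ℝ) ∧
        (T : ℝ) * Real.log ((Fintype.card Q : ℝ) + 1) ≤ c * (n : ℝ) ^ 2) →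
      ∃ N : ℕ, R ≤ {p : ℕ × ℕ | p.1 + p.2 = N ∧ p.1 ∈ A ∧ p.2 ∈ A}.ncard := by
  obtain ⟨c, hc, m, hm, hev⟩ := numeric b R hb α hα
  refine ⟨c, hc, ?_⟩
  intro A hA
  by_contra hcon
  push Not at hcon
  have hr : ∀ N : ℕ, {p : ℕ × ℕ | p.1 + p.2 = N ∧ p.1 ∈ A ∧ p.2 ∈ A}.ncard < 2 ^ R :=
    fun N => (hcon N).trans Nat.lt_two_pow_self
  obtain ⟨n, ⟨Q, Γ, _, M, blank, letter, ord, T, hord, hmem, hcard, hT⟩, hn, hn0⟩ :=
    (hA.and_eventually (hev.and (eventually_gt_atTop 0))).exists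
  obtain ⟨h1, h2, h3, h4, h5⟩ := hn (Fintype.card Q) T hT
  have h6 := layer_core hb M blank letter ord hord A hm hn0 h1 h2 h3 h4 hmem hr
  have h7 : ({a | (Nat.digits b a).length = n ∧
      ∃ t ≤ T, AcceptsNat M blank letter ord b t a}.ncard : ℝ) ≤
      ((b ^ (R * (3 * (n / (2 * m)) + 2 * m)) *
        ((n / (2 * m)) * (Fintype.card Q + 1) ^ (T / (n / (2 * m)))) ^ m : ℕ) : ℝ) := by
    exact_mod_cast h6
  linarith

/-- The elements of `B` with exactly `n` digits. -/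
def lay (b : ℕ) (B : Set ℕ) (n : ℕ) : Set ℕ := {a | a ∈ B ∧ (Nat.digits b a).length = n}

theorem lay_sub (b : ℕ) (hb : 2 ≤ b) (B : Set ℕ) (n : ℕ) : lay b B n ⊆ Set.Iio (b ^ n) := by
  rintro a ⟨_, h⟩
  rw [Set.mem_Iio, ← h]
  exact Nat.lt_base_pow_length_digits (by omega)

theorem layer_bound (b R : ℕ) (hb : 2 ≤ b) (α : ℝ) (hα : 0 < α) {Q Γ : Type} [Fintype Q]
    (M : Machine Q Γ) (blank : Γ) (letter : ℕ → Γ) (ord : List ℕ → List ℕ)
    (hord : ord = id ∨ ord = List.reverse) (T : ℕ → ℕ)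
    (hT : Tendsto (fun n : ℕ => (T n : ℝ) / (n : ℝ) ^ 2) atTop (𝓝 0)) (A : Set ℕ)
    (hdec : ∀ a, a ∈ A ↔ ∃ t, AcceptsNat M blank letter ord b t a)
    (htime : ∀ a ∈ A, ∃ t ≤ T (Nat.digits b a).length, AcceptsNat M blank letter ord b t a)
    (hr : ∀ N : ℕ, {p : ℕ × ℕ | p.1 + p.2 = N ∧ p.1 ∈ A ∧ p.2 ∈ A}.ncard < 2 ^ R) :
    ∀ᶠ n : ℕ in atTop, ((lay b A n).ncard : ℝ) ≤ (b : ℝ) ^ (α * n) := by
  classical
  obtain ⟨c, hc, m, hm, hev⟩ := numeric b R hb α hα
  have hTe : ∀ᶠ n : ℕ in atTop,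
      (T n : ℝ) * Real.log ((Fintype.card Q : ℝ) + 1) ≤ c * (n : ℝ) ^ 2 := by
    have h1 : Tendsto (fun n : ℕ => (T n : ℝ) / (n : ℝ) ^ 2 * Real.log ((Fintype.card Q : ℝ) + 1))
        atTop (𝓝 (0 * Real.log ((Fintype.card Q : ℝ) + 1))) := hT.mul_const _
    rw [zero_mul] at h1
    filter_upwards [h1.eventually_lt_const hc, eventually_gt_atTop 0] with n hn hn0
    have hn1 : (0 : ℝ) < (n : ℝ) ^ 2 := by positivity
    have h2 : (T n : ℝ) / (n : ℝ) ^ 2 * Real.log ((Fintype.card Q : ℝ) + 1) * (n : ℝ) ^ 2 ≤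
        c * (n : ℝ) ^ 2 := mul_le_mul_of_nonneg_right hn.le hn1.le
    have h3 : (T n : ℝ) / (n : ℝ) ^ 2 * Real.log ((Fintype.card Q : ℝ) + 1) * (n : ℝ) ^ 2 =
        (T n : ℝ) * Real.log ((Fintype.card Q : ℝ) + 1) := by field_simp
    rwa [h3] at h2
  filter_upwards [hev, hTe, eventually_gt_atTop 0] with n hn hTn hn0
  obtain ⟨h1, h2, h3, h4, h5⟩ := hn (Fintype.card Q) (T n) hTn
  have h6 := layer_core hb M blank letter ord hord A hm hn0 h1 h2 h3 h4
    (fun a t _ ht => (hdec a).mpr ⟨t, ht⟩) hr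
  have h7 : (lay b A n).ncard ≤ {a | (Nat.digits b a).length = n ∧
      ∃ t ≤ T n, AcceptsNat M blank letter ord b t a}.ncard := by
    apply Set.ncard_le_ncard
    · rintro a ⟨haA, halen⟩
      refine ⟨halen, ?_⟩
      have := htime a haA
      rwa [halen] at this
    · apply (Set.finite_Iio (b ^ n)).subset
      rintro a ⟨halen, _⟩
      rw [Set.mem_Iio, ← halen]
      exact Nat.lt_base_pow_length_digits (by omega)
  have h8 : ((lay b A n).ncard : ℝ) ≤ ((b ^ (R * (3 * (n / (2 * m)) + 2 * m)) *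
        ((n / (2 * m)) * (Fintype.card Q + 1) ^ (T n / (n / (2 * m)))) ^ m : ℕ) : ℝ) := by
    exact_mod_cast h7.trans h6
  exact h8.trans h5.le

theorem growth (b : ℕ) (hb : 2 ≤ b) (α C : ℝ) (hα : 0 < α) :
    ∀ᶠ l : ℕ in atTop, C + (l + 1) * (b : ℝ) ^ (α / 2 * l) < (b : ℝ) ^ (α * l) / (b : ℝ) ^ α := by
  have hb0 : (0 : ℝ) < b := by positivity
  have hb1 : (1 : ℝ) < b := by exact_mod_cast (by omega : 1 < b)
  set r : ℝ := (b : ℝ) ^ (-(α / 2)) with hr
  have hr0 : 0 < r := Real.rpow_pos_of_pos hb0 _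
  have hr1 : r < 1 := Real.rpow_lt_one_of_one_lt_of_neg hb1 (by linarith)
  have h1 : Tendsto (fun l : ℕ => (l : ℝ) * r ^ l) atTop (𝓝 0) :=
    tendsto_self_mul_const_pow_of_lt_one hr0.le hr1
  have h2 : Tendsto (fun l : ℕ => r ^ l) atTop (𝓝 0) := tendsto_pow_atTop_nhds_zero_of_lt_one hr0.le hr1
  have h3 : Tendsto (fun l : ℕ => C * (r ^ l * r ^ l) + ((l : ℝ) * r ^ l + r ^ l)) atTop
      (𝓝 (C * (0 * 0) + (0 + 0))) :=
    ((h2.mul h2).const_mul C).add (h1.add h2)
  have h4 : C * (0 * 0) + (0 + 0) = (0 : ℝ) := by ring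
  rw [h4] at h3
  have h5 : (0 : ℝ) < ((b : ℝ) ^ α)⁻¹ := by positivity
  filter_upwards [h3.eventually_lt_const h5] with l hl
  have e1 : r ^ l = (b : ℝ) ^ (-(α / 2 * l)) := by
    rw [hr, ← Real.rpow_natCast, ← Real.rpow_mul hb0.le]
    congr 1; ring
  have e2 : (b : ℝ) ^ (α * l) * (r ^ l * r ^ l) = 1 := by
    rw [e1, ← Real.rpow_add hb0, ← Real.rpow_add hb0]
    have : α * l + (-(α / 2 * l) + -(α / 2 * l)) = 0 := by ring
    rw [this, Real.rpow_zero]
  have e3 : (b : ℝ) ^ (α * l) * r ^ l = (b : ℝ) ^ (α / 2 * l) := by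
    rw [e1, ← Real.rpow_add hb0]
    congr 1; ring
  have hpos : (0 : ℝ) < (b : ℝ) ^ (α * l) := Real.rpow_pos_of_pos hb0 _
  have h6 := mul_lt_mul_of_pos_left hl hpos
  calc C + (l + 1) * (b : ℝ) ^ (α / 2 * l)
      = (b : ℝ) ^ (α * l) * (C * (r ^ l * r ^ l) + ((l : ℝ) * r ^ l + r ^ l)) := by
        have : (b : ℝ) ^ (α * l) * (C * (r ^ l * r ^ l) + ((l : ℝ) * r ^ l + r ^ l)) =
          C * ((b : ℝ) ^ (α * l) * (r ^ l * r ^ l)) + (l + 1) * ((b : ℝ) ^ (α * l) * r ^ l) := by ring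
        rw [this, e2, e3, mul_one]
    _ < (b : ℝ) ^ (α * l) * ((b : ℝ) ^ α)⁻¹ := h6
    _ = (b : ℝ) ^ (α * l) / (b : ℝ) ^ α := by rw [div_eq_mul_inv]

theorem uniform (b : ℕ) (hb : 2 ≤ b) (α : ℝ) (hα : 0 < α) {Q Γ : Type} [Fintype Q]
    (M : Machine Q Γ) (blank : Γ) (letter : ℕ → Γ) (ord : List ℕ → List ℕ)
    (hord : ord = id ∨ ord = List.reverse) (T : ℕ → ℕ)
    (hT : Tendsto (fun n : ℕ => (T n : ℝ) / (n : ℝ) ^ 2) atTop (𝓝 0)) (A : Set ℕ)
    (hdec : ∀ a, a ∈ A ↔ ∃ t, AcceptsNat M blank letter ord b t a)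
    (htime : ∀ a ∈ A, ∃ t ≤ T (Nat.digits b a).length, AcceptsNat M blank letter ord b t a)
    (hdens : ∃ᶠ N : ℕ in atTop, (N : ℝ) ^ α ≤ ((A ∩ Set.Icc 1 N).ncard : ℝ)) (R : ℕ) :
    ∃ N : ℕ, R ≤ {p : ℕ × ℕ | p.1 + p.2 = N ∧ p.1 ∈ A ∧ p.2 ∈ A}.ncard := by
  classical
  by_contra hcon
  push Not at hcon
  have hr : ∀ N : ℕ, {p : ℕ × ℕ | p.1 + p.2 = N ∧ p.1 ∈ A ∧ p.2 ∈ A}.ncard < 2 ^ R :=
    fun N => (hcon N).trans Nat.lt_two_pow_self
  have hb0 : (0 : ℝ) < b := by positivity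
  have hb1 : (1 : ℝ) ≤ b := by exact_mod_cast (by omega : 1 ≤ b)
  have h1 := layer_bound b R hb (α / 2) (by positivity) M blank letter ord hord T hT A hdec
    htime hr
  obtain ⟨n₀, hn₀⟩ := eventually_atTop.mp h1
  set C : ℝ := ∑ n ∈ Finset.range n₀, (b : ℝ) ^ n with hC
  obtain ⟨l₀, hl₀⟩ := eventually_atTop.mp (growth b hb α C hα)
  obtain ⟨N, hN, hNbig⟩ := (hdens.and_eventually (eventually_ge_atTop (b ^ l₀))).exists
  have hN0 : N ≠ 0 := by
    have : 0 < b ^ l₀ := by positivity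
    omega
  set l := (Nat.digits b N).length with hl
  have hlN : N < b ^ l := Nat.lt_base_pow_length_digits (by omega)
  have hll : l₀ ≤ l := by
    have : b ^ l₀ < b ^ l := by omega
    exact ((Nat.pow_lt_pow_iff_right (by omega)).mp this).le
  have hNl : b ^ l ≤ b * N := Nat.base_pow_length_digits_le b N (by omega) hN0
  -- lower bound for N ^ α
  have h2 : (b : ℝ) ^ (α * l) / (b : ℝ) ^ α ≤ (N : ℝ) ^ α := by
    rw [div_le_iff₀ (Real.rpow_pos_of_pos hb0 _), ← Real.mul_rpow (by positivity) (by positivity)]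
    have h3 : (b : ℝ) ^ (α * l) = ((b : ℝ) ^ l) ^ α := by
      rw [← Real.rpow_natCast, ← Real.rpow_mul hb0.le]; congr 1; ring
    rw [h3]
    apply Real.rpow_le_rpow (by positivity) _ hα.le
    have : (b : ℝ) ^ l ≤ b * N := by exact_mod_cast hNl
    linarith
  -- upper bound for the counting function
  have h3 : ((A ∩ Set.Icc 1 N).ncard : ℝ) ≤ C + (l + 1) * (b : ℝ) ^ (α / 2 * l) := by
    have hsub : A ∩ Set.Icc 1 N ⊆ ⋃ n ∈ Finset.range (l + 1), lay b A n := by
      rintro a ⟨haB, _, haN⟩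
      simp only [Set.mem_iUnion, Finset.mem_range]
      refine ⟨(Nat.digits b a).length, ?_, haB, rfl⟩
      have := Nat.le_length_digits_le b a N haN
      omega
    have hfin : (⋃ n ∈ Finset.range (l + 1), lay b A n).Finite := by
      apply Set.Finite.biUnion (Finset.finite_toSet _)
      intro n _
      exact (Set.finite_Iio _).subset (lay_sub b hb A n)
    have h4 : (A ∩ Set.Icc 1 N).ncard ≤ ∑ n ∈ Finset.range (l + 1), (lay b A n).ncard :=
      (Set.ncard_le_ncard hsub hfin).trans (Finset.set_ncard_biUnion_le _ _)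
    have h5 : ((A ∩ Set.Icc 1 N).ncard : ℝ) ≤ ∑ n ∈ Finset.range (l + 1), ((lay b A n).ncard : ℝ) := by
      exact_mod_cast h4
    refine h5.trans ?_
    have h6 : ∀ n ∈ Finset.range (l + 1), ((lay b A n).ncard : ℝ) ≤
        (if n < n₀ then (b : ℝ) ^ n else 0) + (b : ℝ) ^ (α / 2 * l) := by
      intro n hn
      rw [Finset.mem_range] at hn
      split_ifs with hlt
      · have h7 : (lay b A n).ncard ≤ b ^ n := by
          calc (lay b A n).ncard ≤ (Set.Iio (b ^ n)).ncard :=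
                Set.ncard_le_ncard (lay_sub b hb A n) (Set.finite_Iio _)
            _ = b ^ n := by
                rw [← Finset.coe_Iio, Set.ncard_coe_finset, Nat.card_Iio]
        have h8 : ((lay b A n).ncard : ℝ) ≤ (b : ℝ) ^ n := by exact_mod_cast h7
        have : (0 : ℝ) ≤ (b : ℝ) ^ (α / 2 * l) := by positivity
        linarith
      · rw [zero_add]
        refine (hn₀ n (by omega)).trans ?_
        apply Real.rpow_le_rpow_of_exponent_le hb1
        have : (n : ℝ) ≤ l := by exact_mod_cast (by omega : n ≤ l)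
        have hα2 : 0 ≤ α / 2 := by positivity
        exact mul_le_mul_of_nonneg_left this hα2
    refine (Finset.sum_le_sum h6).trans ?_
    rw [Finset.sum_add_distrib, Finset.sum_const, Finset.card_range, nsmul_eq_mul]
    push_cast
    gcongr
    rw [← Finset.sum_filter, hC]
    apply Finset.sum_le_sum_of_subset_of_nonneg
    · intro n hn
      simp only [Finset.mem_filter, Finset.mem_range] at hn ⊢
      exact hn.2
    · intro n _ _
      positivity
  have h4 := hl₀ l hll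
  linarith

end Pool.Agent.OneTape
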